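import Mathlib

/-!
Dimension theory used in the proof: transcendence degree of the quotient by a minimal prime over
`P + (f)` drops by at most one.
-/

namespace Pool.Agent.V11292.SZ

open MvPolynomial Cardinal

variable {σ : Type} [Finite σ]

theorem degreeOf_eq_zero' {τ : Type} (i : τ) (p : MvPolynomial τ ℚ) :
    degreeOf i p = 0 ↔ ∀ m ∈ p.support, m i = 0 := by
  rw [degreeOf_eq_sup]
  constructor
  · intro h m hm
    have := Finset.le_sup (f := fun m : τ →₀ ℕ => m i) hm
    rw [h] at this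
    simpa using this
  · intro h
    refine le_antisymm (Finset.sup_le fun m hm => (h m hm).le) (Nat.zero_le _)

theorem trdeg_le_of_integral {R : Type} [CommRing R] [IsDomain R] [Algebra ℚ R] {s : ℕ}
    (g : MvPolynomial (Fin s) ℚ →ₐ[ℚ] R)
    (gint : g.IsIntegral) : Algebra.trdeg ℚ R ≤ (s : Cardinal) := by
  classical
  have halg : Algebra.IsAlgebraic (Algebra.adjoin ℚ (Set.range fun i : Fin s => g (X i))) R := by
    constructor
    intro x
    obtain ⟨p, hp, hpx⟩ := gint x
    have hrange : ∀ a : MvPolynomial (Fin s) ℚ,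
        g a ∈ Algebra.adjoin ℚ (Set.range fun i : Fin s => g (X i)) := by
      intro a
      have h1 : Set.range (fun i : Fin s => g (X i)) = g '' Set.range X := by
        rw [← Set.range_comp]; rfl
      rw [h1, ← AlgHom.map_adjoin, MvPolynomial.adjoin_range_X]
      exact ⟨a, trivial, rfl⟩
    let φ : MvPolynomial (Fin s) ℚ →+* Algebra.adjoin ℚ (Set.range fun i : Fin s => g (X i)) :=
      (g : MvPolynomial (Fin s) ℚ →+* _).codRestrict _ hrange
    refine ⟨p.map φ, (hp.map φ).ne_zero, ?_⟩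
    rw [Polynomial.aeval_def, Polynomial.eval₂_map]
    exact hpx
  have h2 := Algebra.IsAlgebraic.trdeg_le_cardinalMk (A := R) ℚ
    (Set.range fun i : Fin s => g (X i))
  refine h2.trans ?_
  have := Cardinal.mk_range_le (f := fun i : Fin s => g (X i))
  simpa using this

/-- If `P` is a prime of a polynomial ring over `ℚ` and `Q` is a minimal prime over `P + (f)`
then `trdeg (S/Q) ≥ trdeg (S/P) - 1`. -/
theorem trdeg_drop (P : Ideal (MvPolynomial σ ℚ)) [hP : P.IsPrime] (f : MvPolynomial σ ℚ)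
    (Q : Ideal (MvPolynomial σ ℚ)) (hQ : Q ∈ (P ⊔ Ideal.span {f}).minimalPrimes) (k : ℕ)
    (hk : ((k + 1 : ℕ) : Cardinal) ≤ Algebra.trdeg ℚ (MvPolynomial σ ℚ ⧸ P)) :
    (k : Cardinal) ≤ Algebra.trdeg ℚ (MvPolynomial σ ℚ ⧸ Q) := by
  classical
  have hQp : Q.IsPrime := hQ.isPrime
  have hPQ : P ≤ Q := le_sup_left.trans hQ.le
  obtain ⟨s, g, ginj, gint⟩ := exists_integral_inj_algHom_of_fg ℚ (MvPolynomial σ ℚ ⧸ P)
  have htr := trdeg_le_of_integral g gint
  have hks : k + 1 ≤ s := by exact_mod_cast hk.trans htr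
  -- the prime of S/P
  set 𝔮 : Ideal (MvPolynomial σ ℚ ⧸ P) := Q.map (Ideal.Quotient.mk P) with h𝔮
  have h𝔮p : 𝔮.IsPrime := Ideal.isPrime_map_quotientMk_of_isPrime hPQ
  have hht : 𝔮.height ≤ 1 := Ideal.map_height_le_one_of_mem_minimalPrimes hQ
  let ψ : MvPolynomial (Fin s) ℚ →ₐ[ℚ] (MvPolynomial σ ℚ ⧸ Q) :=
    (Ideal.Quotient.factorₐ ℚ hPQ).comp g
  have hψ : ∀ a, ψ a = 0 ↔ g a ∈ 𝔮 := by
    intro a
    obtain ⟨b, hb⟩ := Ideal.Quotient.mk_surjective (g a)
    have : ψ a = Ideal.Quotient.mk Q b := by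
      simp only [ψ, AlgHom.comp_apply, ← hb]
      rfl
    rw [this, ← hb, Ideal.Quotient.eq_zero_iff_mem, h𝔮]
    constructor
    · intro h; exact Ideal.mem_map_of_mem _ h
    · intro h
      have := (Ideal.mem_map_iff_of_surjective _ Ideal.Quotient.mk_surjective).1 h
      obtain ⟨c, hc, hcb⟩ := this
      have h3 : c - b ∈ P := by
        rw [← Ideal.Quotient.eq_zero_iff_mem, map_sub, hcb, sub_self]
      have h4 := Q.sub_mem hc (hPQ h3)
      simpa using h4
  let _ : Algebra (MvPolynomial (Fin s) ℚ) (MvPolynomial σ ℚ ⧸ P) := g.toRingHom.toAlgebra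
  have hfaith : FaithfulSMul (MvPolynomial (Fin s) ℚ) (MvPolynomial σ ℚ ⧸ P) :=
    (faithfulSMul_iff_algebraMap_injective _ _).2 ginj
  have hint : Algebra.IsIntegral (MvPolynomial (Fin s) ℚ) (MvPolynomial σ ℚ ⧸ P) := ⟨gint⟩
  set 𝔭 : Ideal (MvPolynomial (Fin s) ℚ) := 𝔮.under (MvPolynomial (Fin s) ℚ) with h𝔭
  have hmem : ∀ a, a ∈ 𝔭 ↔ ψ a = 0 := by
    intro a
    rw [hψ, h𝔭, Ideal.under_def, Ideal.mem_comap]
    rfl
  have h𝔭p : 𝔭.IsPrime := inferInstance
  have hht' : 𝔭.height ≤ 1 := by
    have := Ideal.height_eq_height_add_of_liesOver_of_hasGoingDown 𝔭 𝔮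
    calc 𝔭.height ≤ 𝔮.height := by rw [this]; exact le_self_add
      _ ≤ 1 := hht
  by_cases hbot : 𝔭 = ⊥
  · have hinj : Function.Injective ψ := by
      rw [injective_iff_map_eq_zero]
      intro a ha
      have : a ∈ 𝔭 := (hmem a).2 ha
      rwa [hbot] at this
    have hind : AlgebraicIndependent ℚ (fun i : Fin s => ψ (X i)) :=
      (MvPolynomial.algebraicIndependent_X (Fin s) ℚ).map' hinj
    have := hind.cardinalMk_le_trdeg
    rw [Cardinal.mk_fin] at this
    exact le_trans (by exact_mod_cast (by omega : k ≤ s)) this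
  · obtain ⟨π, hπ, hπp⟩ := h𝔭p.exists_mem_prime_of_ne_bot hbot
    have hone : 𝔭.height = 1 := by
      refine le_antisymm hht' ?_
      rw [Order.one_le_iff_ne_zero]
      intro h0
      exact hbot (Ideal.height_eq_zero_iff_eq_bot.1 h0)
    have hspan := Ideal.eq_span_singleton_of_height_eq_one hone hπ hπp
    -- a variable occurring in π
    obtain ⟨i, hi⟩ : ∃ i, 0 < degreeOf i π := by
      by_contra hcon
      push Not at hcon
      have hC : π = C (coeff 0 π) := by
        have htd : π.totalDegree = 0 := by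
          rw [totalDegree_eq_zero_iff]
          intro m hm x
          have := hcon x
          rw [Nat.le_zero, degreeOf_eq_zero'] at this
          exact this m hm
        exact totalDegree_eq_zero_iff_eq_C.1 htd
      have hu : IsUnit π := by
        rw [hC]
        have : coeff 0 π ≠ 0 := by
          intro h0
          rw [h0, C_0] at hC
          exact hπp.ne_zero hC
        exact (IsUnit.mk0 _ this).map C
      exact hπp.not_isUnit hu
    have hind : AlgebraicIndependent ℚ (fun j : {j : Fin s // j ≠ i} => ψ (X j.1)) := by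
      rw [algebraicIndependent_iff_injective_aeval, injective_iff_map_eq_zero]
      intro p hp
      have h5 : ψ (rename Subtype.val p) = 0 := by
        have : (aeval (fun j : {j : Fin s // j ≠ i} => ψ (X j.1))) p
            = ψ (rename Subtype.val p) := by
          have : (aeval (fun j : {j : Fin s // j ≠ i} => ψ (X j.1))) =
              ψ.comp (rename Subtype.val) := by
            ext j
            simp
          rw [this]; rfl
        rw [← this, hp]
      have h6 : rename Subtype.val p ∈ 𝔭 := (hmem _).2 h5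
      rw [hspan, Ideal.mem_span_singleton] at h6
      obtain ⟨u, hu⟩ := h6
      by_contra hp0
      have h7 : rename (Subtype.val : {j : Fin s // j ≠ i} → Fin s) p ≠ 0 := by
        intro h
        exact hp0 (rename_injective _ Subtype.val_injective (by rw [h, map_zero]))
      have hu0 : u ≠ 0 := by
        rintro rfl
        rw [mul_zero] at hu
        exact h7 hu
      have h8 := degreeOf_mul_eq (n := i) hπp.ne_zero hu0
      rw [← hu] at h8
      have h9 : degreeOf i (rename (Subtype.val : {j : Fin s // j ≠ i} → Fin s) p) = 0 := by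
        rw [degreeOf_eq_zero']
        intro m hm
        rw [← Finsupp.notMem_support_iff]
        intro hmi
        have hv : i ∈ (rename (Subtype.val : {j : Fin s // j ≠ i} → Fin s) p).vars :=
          (mem_vars_iff_mem_support i).2 ⟨m, hm, hmi⟩
        have := vars_rename _ _ hv
        simp at this
      omega
    have h10 := hind.cardinalMk_le_trdeg
    have h11 : #{j : Fin s // j ≠ i} = ((s - 1 : ℕ) : Cardinal) := by
      rw [Cardinal.mk_fintype]
      simp [Fintype.card_subtype_compl]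
    rw [h11] at h10
    exact le_trans (by exact_mod_cast (by omega : k ≤ s - 1)) h10

/-- Krull dimension bounds the transcendence degree from below. -/
theorem le_trdeg_of_krullDim (P : Ideal (MvPolynomial σ ℚ)) [hP : P.IsPrime] (k : ℕ)
    (hk : ringKrullDim (MvPolynomial σ ℚ ⧸ P) = (k : ℕ)) :
    (k : Cardinal) ≤ Algebra.trdeg ℚ (MvPolynomial σ ℚ ⧸ P) := by
  obtain ⟨s, g, ginj, gint⟩ := exists_integral_inj_algHom_of_fg ℚ (MvPolynomial σ ℚ ⧸ P)
  let _ : Algebra (MvPolynomial (Fin s) ℚ) (MvPolynomial σ ℚ ⧸ P) := g.toRingHom.toAlgebra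
  have hint : Algebra.IsIntegral (MvPolynomial (Fin s) ℚ) (MvPolynomial σ ℚ ⧸ P) := ⟨gint⟩
  have h1 : ringKrullDim (MvPolynomial σ ℚ ⧸ P) ≤ ringKrullDim (MvPolynomial (Fin s) ℚ) := by
    refine Order.krullDim_le_of_strictMono
      (PrimeSpectrum.comap (algebraMap (MvPolynomial (Fin s) ℚ) (MvPolynomial σ ℚ ⧸ P))) ?_
    intro I J hIJ
    have hlt : I.asIdeal < J.asIdeal := hIJ
    obtain ⟨hle, x, hxJ, hxI⟩ := SetLike.lt_iff_le_and_exists.1 hlt
    exact Ideal.comap_lt_comap_of_integral_mem_sdiff (R := MvPolynomial (Fin s) ℚ) hle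
      ⟨hxJ, hxI⟩ (hint.isIntegral x)
  rw [hk, MvPolynomial.ringKrullDim_of_isNoetherianRing, ringKrullDim_eq_zero_of_field] at h1
  have h2 : k ≤ s := by
    simp only [Nat.card_eq_fintype_card, Fintype.card_fin, zero_add] at h1
    exact_mod_cast h1
  have hind : AlgebraicIndependent ℚ (fun i : Fin s => g (X i)) :=
    (MvPolynomial.algebraicIndependent_X (Fin s) ℚ).map' ginj
  have := hind.cardinalMk_le_trdeg
  rw [Cardinal.mk_fin] at this
  exact le_trans (by exact_mod_cast h2) this

/-- If all linear forms vanishing at `v` are in `P` then `trdeg (S/P) ≤ 1`. -/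
theorem trdeg_le_one (P : Ideal (MvPolynomial σ ℚ)) [hP : P.IsPrime] (v : σ → ℚ) (i₀ : σ)
    (hv : v i₀ ≠ 0) (h : ∀ i, (C (v i₀) * X i - C (v i) * X i₀ : MvPolynomial σ ℚ) ∈ P) :
    Algebra.trdeg ℚ (MvPolynomial σ ℚ ⧸ P) ≤ 1 := by
  classical
  set x₀ : MvPolynomial σ ℚ ⧸ P := Ideal.Quotient.mk P (X i₀) with hx₀
  have hX : ∀ i, Ideal.Quotient.mk P (X i) = (v i / v i₀) • x₀ := by
    intro i
    have h1 := h i
    have h2 : (X i - C (v i / v i₀) * X i₀ : MvPolynomial σ ℚ) ∈ P := by
      have h3 := P.mul_mem_left (C (v i₀)⁻¹) h1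
      have h4 : (C (v i₀)⁻¹ * (C (v i₀) * X i - C (v i) * X i₀) : MvPolynomial σ ℚ)
          = X i - C (v i / v i₀) * X i₀ := by
        rw [mul_sub, ← mul_assoc, ← C_mul, inv_mul_cancel₀ hv, C_1, one_mul, ← mul_assoc,
          ← C_mul]
        congr 3
        field_simp
      rwa [h4] at h3
    rw [← Ideal.Quotient.eq_zero_iff_mem, map_sub, sub_eq_zero, map_mul] at h2
    rw [h2]
    exact (Algebra.smul_def (v i / v i₀) x₀).symm
  have hadj : Algebra.adjoin ℚ {x₀} = ⊤ := by
    rw [eq_top_iff]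
    intro y _
    obtain ⟨f, rfl⟩ := Ideal.Quotient.mk_surjective y
    induction f using MvPolynomial.induction_on with
    | C a => exact (Algebra.adjoin ℚ {x₀}).algebraMap_mem a
    | add p q hp hq => rw [map_add]; exact Subalgebra.add_mem _ (hp trivial) (hq trivial)
    | mul_X p i hp =>
      rw [map_mul, hX]
      refine Subalgebra.mul_mem _ (hp trivial) (Subalgebra.smul_mem _ ?_ _)
      exact Algebra.subset_adjoin rfl
  have halg : Algebra.IsAlgebraic (Algebra.adjoin ℚ {x₀}) (MvPolynomial σ ℚ ⧸ P) := by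
    constructor
    intro y
    have : y ∈ Algebra.adjoin ℚ {x₀} := by rw [hadj]; trivial
    exact isAlgebraic_algebraMap (⟨y, this⟩ : Algebra.adjoin ℚ {x₀})
  have h2 := Algebra.IsAlgebraic.trdeg_le_cardinalMk (A := MvPolynomial σ ℚ ⧸ P) ℚ {x₀}
  simpa using h2

end Pool.Agent.V11292.SZ
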