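import Mathlib

/-!
Hilbert functions of homogeneous ideals.
-/

namespace Pool.Agent.V11292.SZ

open MvPolynomial

variable {N : ℕ}

/-- The degree `t` part of the homogeneous coordinate ring `ℚ[X_0,...,X_{N-1}]/P`. -/
noncomputable def gpart (P : Ideal (MvPolynomial (Fin N) ℚ)) (t : ℕ) :
    Submodule ℚ (MvPolynomial (Fin N) ℚ ⧸ P) :=
  (homogeneousSubmodule (Fin N) ℚ t).map (Ideal.Quotient.mkₐ ℚ P).toLinearMap

/-- Hilbert function. -/
noncomputable def hilb (P : Ideal (MvPolynomial (Fin N) ℚ)) (t : ℕ) : ℕ :=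
  Module.finrank ℚ (gpart P t)

instance gpart_finite (P : Ideal (MvPolynomial (Fin N) ℚ)) (t : ℕ) :
    Module.Finite ℚ (gpart P t) := by
  rw [Module.Finite.iff_fg]
  exact (homogeneousSubmodule_fg (Fin N) ℚ t).map _

theorem mem_gpart {P : Ideal (MvPolynomial (Fin N) ℚ)} {t : ℕ}
    {x : MvPolynomial (Fin N) ℚ ⧸ P} :
    x ∈ gpart P t ↔ ∃ f, f.IsHomogeneous t ∧ Ideal.Quotient.mk P f = x := by
  unfold gpart
  rw [Submodule.mem_map]
  rfl

/-- A family of homogeneous polynomials of degree `t`, linearly independent modulo `P`. -/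
theorem card_le_hilb {ι : Type} [Fintype ι] (P : Ideal (MvPolynomial (Fin N) ℚ)) (t : ℕ)
    (f : ι → MvPolynomial (Fin N) ℚ) (hf : ∀ i, (f i).IsHomogeneous t)
    (hind : ∀ c : ι → ℚ, (∑ i, c i • f i) ∈ P → ∀ i, c i = 0) :
    Fintype.card ι ≤ hilb P t := by
  have hli : LinearIndependent ℚ (fun i => (⟨Ideal.Quotient.mk P (f i),
      mem_gpart.2 ⟨f i, hf i, rfl⟩⟩ : gpart P t)) := by
    rw [Fintype.linearIndependent_iff]
    intro c hc
    apply hind c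
    have := congrArg (Subtype.val) hc
    simp only [Submodule.coe_sum, Submodule.coe_smul, Submodule.coe_zero] at this
    rw [← Ideal.Quotient.eq_zero_iff_mem, map_sum, ← this]
    refine Finset.sum_congr rfl fun i _ => ?_
    rfl
  exact hli.fintype_card_le_finrank

theorem exists_basis_polys (P : Ideal (MvPolynomial (Fin N) ℚ)) (t : ℕ) :
    ∃ f : Fin (hilb P t) → MvPolynomial (Fin N) ℚ, (∀ i, (f i).IsHomogeneous t) ∧
      ∀ c : Fin (hilb P t) → ℚ, (∑ i, c i • f i) ∈ P → ∀ i, c i = 0 := by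
  let b := Module.finBasis ℚ (gpart P t)
  have h : ∀ i, ∃ f, f.IsHomogeneous t ∧ Ideal.Quotient.mk P f = (b i : _) := fun i =>
    mem_gpart.1 (b i).2
  choose f hf hfb using h
  refine ⟨f, hf, ?_⟩
  intro c hc
  have := Fintype.linearIndependent_iff.1 b.linearIndependent c
  apply this
  apply Subtype.ext
  simp only [Submodule.coe_sum, Submodule.coe_smul, Submodule.coe_zero]
  rw [← Ideal.Quotient.eq_zero_iff_mem, map_sum] at hc
  rw [← hc]
  refine Finset.sum_congr rfl fun i _ => ?_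
  rw [← hfb i]
  rfl

theorem hilb_mono {P J : Ideal (MvPolynomial (Fin N) ℚ)} (h : P ≤ J) (t : ℕ) :
    hilb J t ≤ hilb P t := by
  obtain ⟨f, hf, hind⟩ := exists_basis_polys J t
  have := card_le_hilb P t f hf (fun c hc => hind c (h hc))
  simpa using this

/-- Hyperplane section inequality. -/
theorem hilb_section (P : Ideal (MvPolynomial (Fin N) ℚ)) [P.IsPrime]
    (ℓ : MvPolynomial (Fin N) ℚ) (hℓ : ℓ.IsHomogeneous 1) (hℓP : ℓ ∉ P)
    (J : Ideal (MvPolynomial (Fin N) ℚ)) (hPJ : P ≤ J) (hℓJ : ℓ ∈ J) (t : ℕ) :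
    hilb J (t + 1) + hilb P t ≤ hilb P (t + 1) := by
  obtain ⟨f, hf, hfind⟩ := exists_basis_polys J (t + 1)
  obtain ⟨g, hg, hgind⟩ := exists_basis_polys P t
  have := card_le_hilb (ι := Fin (hilb J (t + 1)) ⊕ Fin (hilb P t)) P (t + 1)
    (Sum.elim f (fun i => ℓ * g i)) ?_ ?_
  · simpa using this
  · rintro (i | i)
    · exact hf i
    · have := hℓ.mul (hg i)
      rwa [add_comm 1 t] at this
  · intro c hc
    rw [Fintype.sum_sum_type] at hc
    simp only [Sum.elim_inl, Sum.elim_inr] at hc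
    have h1 : (∑ i, c (Sum.inr i) • (ℓ * g i)) ∈ J := by
      refine J.sum_mem fun i _ => ?_
      rw [MvPolynomial.smul_eq_C_mul]
      exact J.mul_mem_left _ (J.mul_mem_right _ hℓJ)
    have h2 : (∑ i, c (Sum.inl i) • f i) ∈ J := by
      have := J.sub_mem (hPJ hc) h1
      simpa using this
    have h3 := hfind _ h2
    have h4 : (∑ i, c (Sum.inr i) • (ℓ * g i)) ∈ P := by
      have h5 : (∑ i, c (Sum.inl i) • f i) = 0 := by
        refine Finset.sum_eq_zero fun i _ => ?_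
        rw [h3 i, zero_smul]
      rw [h5, zero_add] at hc
      exact hc
    have h6 : ℓ * (∑ i, c (Sum.inr i) • g i) ∈ P := by
      rw [Finset.mul_sum]
      simpa only [mul_smul_comm] using h4
    have h7 := (‹P.IsPrime›.mem_or_mem h6).resolve_left hℓP
    have h8 := hgind _ h7
    rintro (i | i)
    · exact h3 i
    · exact h8 i

/-- Several incomparable primes containing `J`. -/
theorem sum_hilb_le (J : Ideal (MvPolynomial (Fin N) ℚ))
    (𝒬 : Finset (Ideal (MvPolynomial (Fin N) ℚ)))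
    (hprime : ∀ Q ∈ 𝒬, Q.IsPrime)
    (hhom : ∀ Q ∈ 𝒬, ∀ f ∈ Q, ∀ m, homogeneousComponent m f ∈ Q)
    (hX : ∀ Q ∈ 𝒬, ∃ ℓ : MvPolynomial (Fin N) ℚ, ℓ.IsHomogeneous 1 ∧ ℓ ∉ Q)
    (hinc : ∀ Q ∈ 𝒬, ∀ Q' ∈ 𝒬, Q' ≤ Q → Q' = Q)
    (hJ : ∀ Q ∈ 𝒬, J ≤ Q) :
    ∃ b, ∀ t, ∑ Q ∈ 𝒬, hilb Q t ≤ hilb J (t + b) := by
  classical
  -- separating homogeneous polynomials
  have hsep : ∀ Q ∈ 𝒬, ∃ m : ℕ, ∃ f : MvPolynomial (Fin N) ℚ, f.IsHomogeneous m ∧ f ∉ Q ∧
      ∀ Q' ∈ 𝒬, Q' ≠ Q → f ∈ Q' := by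
    intro Q hQ
    have hQp := hprime Q hQ
    have hnot : ¬ ((𝒬.erase Q).inf id ≤ Q) := by
      intro hle
      obtain ⟨Q', hQ', hle'⟩ := (Ideal.IsPrime.inf_le' hQp).1 hle
      have hQ'' := Finset.mem_of_mem_erase hQ'
      exact Finset.ne_of_mem_erase hQ' (hinc Q hQ Q' hQ'' hle')
    obtain ⟨f, hf, hfQ⟩ := Set.not_subset.1 hnot
    have : ∃ m, homogeneousComponent m f ∉ Q := by
      by_contra hcon
      push Not at hcon
      apply hfQ
      have h1 := sum_homogeneousComponent f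
      rw [← h1]
      exact Q.sum_mem fun m _ => hcon m
    obtain ⟨m, hm⟩ := this
    refine ⟨m, homogeneousComponent m f, homogeneousComponent_isHomogeneous m f, hm, ?_⟩
    intro Q' hQ' hne
    refine hhom Q' hQ' f ?_ m
    have h2 : (𝒬.erase Q).inf id ≤ Q' := Finset.inf_le (f := id) (Finset.mem_erase.2 ⟨hne, hQ'⟩)
    exact h2 hf
  choose! m f hfhom hfQ hfQ' using hsep
  choose! ℓ hℓhom hiX using hX
  set b := ∑ Q ∈ 𝒬, m Q with hb
  refine ⟨b, fun t => ?_⟩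
  have hmb : ∀ Q ∈ 𝒬, m Q ≤ b := fun Q hQ => Finset.single_le_sum (fun _ _ => Nat.zero_le _) hQ
  let F : Ideal (MvPolynomial (Fin N) ℚ) → MvPolynomial (Fin N) ℚ := fun Q =>
    f Q * (ℓ Q) ^ (b - m Q)
  have hFhom : ∀ Q ∈ 𝒬, (F Q).IsHomogeneous b := by
    intro Q hQ
    have := (hfhom Q hQ).mul ((hℓhom Q hQ).pow (b - m Q))
    rwa [one_mul, Nat.add_sub_cancel' (hmb Q hQ)] at this
  have hFQ : ∀ Q ∈ 𝒬, F Q ∉ Q := by
    intro Q hQ h
    have hQp := hprime Q hQ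
    rcases hQp.mem_or_mem h with h | h
    · exact hfQ Q hQ h
    · exact hiX Q hQ (hQp.mem_of_pow_mem _ h)
  have hFQ' : ∀ Q ∈ 𝒬, ∀ Q' ∈ 𝒬, Q' ≠ Q → F Q ∈ Q' := fun Q hQ Q' hQ' hne =>
    Q'.mul_mem_right _ (hfQ' Q hQ Q' hQ' hne)
  choose p hp hpind using fun Q : Ideal (MvPolynomial (Fin N) ℚ) => exists_basis_polys Q t
  have := card_le_hilb (ι := (Σ Q : {Q // Q ∈ 𝒬}, Fin (hilb Q.1 t))) J (t + b)
    (fun x => F x.1.1 * p x.1.1 x.2) ?_ ?_
  · rw [Fintype.card_sigma] at this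
    simp only [Fintype.card_fin] at this
    rw [← Finset.sum_coe_sort 𝒬 (fun Q => hilb Q t)]
    exact this
  · rintro ⟨⟨Q, hQ⟩, i⟩
    have := (hFhom Q hQ).mul (hp Q i)
    rwa [add_comm b t] at this
  · intro c hc
    rintro ⟨⟨Q, hQ⟩, i⟩
    have hQp := hprime Q hQ
    rw [Fintype.sum_sigma] at hc
    have h1 := hJ Q hQ hc
    rw [← Finset.add_sum_erase _ _ (Finset.mem_univ (⟨Q, hQ⟩ : {Q // Q ∈ 𝒬}))] at h1
    have h2 : (∑ x ∈ Finset.univ.erase (⟨Q, hQ⟩ : {Q // Q ∈ 𝒬}),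
        ∑ y : Fin (hilb x.1 t), c ⟨x, y⟩ • (F x.1 * p x.1 y)) ∈ Q := by
      refine Q.sum_mem fun x hx => Q.sum_mem fun y _ => ?_
      rw [MvPolynomial.smul_eq_C_mul]
      refine Q.mul_mem_left _ (Q.mul_mem_right _ ?_)
      refine hFQ' x.1 x.2 Q hQ ?_
      intro h
      exact Finset.ne_of_mem_erase hx (Subtype.ext h.symm)
    have h3 := Q.sub_mem h1 h2
    rw [add_sub_cancel_right] at h3
    have h4 : F Q * (∑ y : Fin (hilb Q t), c ⟨⟨Q, hQ⟩, y⟩ • p Q y) ∈ Q := by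
      rw [Finset.mul_sum]
      simpa only [mul_smul_comm] using h3
    have h5 := (hQp.mem_or_mem h4).resolve_left (hFQ Q hQ)
    exact hpind Q _ h5 i

end Pool.Agent.V11292.SZ
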