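import Mathlib
import Pool.Agent.V11292.SZ.Key

/-!
The key counting inequality.
-/

namespace Pool.Agent.V11292.SZ

open MvPolynomial

attribute [local instance] MvPolynomial.gradedAlgebra

variable {N : ℕ}

theorem exists_lin_separating {v v' : Fin N → ℚ} (hv' : v' ≠ 0) (h : ∀ c : ℚ, v ≠ c • v') :
    ∃ w : Fin N → ℚ, ∑ i, w i * v' i = 0 ∧ ∑ i, w i * v i ≠ 0 := by
  obtain ⟨b, hb⟩ := Function.ne_iff.1 hv'
  have hb' : v' b ≠ 0 := hb
  obtain ⟨a, ha⟩ : ∃ a, v a * v' b ≠ v b * v' a := by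
    by_contra hcon
    push Not at hcon
    apply h (v b / v' b)
    funext a
    have := hcon a
    rw [Pi.smul_apply, smul_eq_mul]
    field_simp
    linarith
  refine ⟨v' b • Pi.single a 1 - v' a • Pi.single b 1, ?_, ?_⟩
  · simp only [Pi.sub_apply, Pi.smul_apply, Pi.single_apply, smul_eq_mul, sub_mul,
      Finset.sum_sub_distrib, mul_ite, mul_one, mul_zero, ite_mul, zero_mul]
    simp [mul_comm]
  · simp only [Pi.sub_apply, Pi.smul_apply, Pi.single_apply, smul_eq_mul, sub_mul,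
      Finset.sum_sub_distrib, mul_ite, mul_one, mul_zero, ite_mul, zero_mul]
    simp only [Finset.sum_ite_eq', Finset.mem_univ, if_true]
    intro h0
    apply ha
    linarith

theorem eval_lin_self {v : Fin N → ℚ} (hv : v ≠ 0) : eval v (lin v) ≠ 0 := by
  rw [eval_lin]
  obtain ⟨b, hb⟩ := Function.ne_iff.1 hv
  have h1 : v b * v b ≤ ∑ i, v i * v i :=
    Finset.single_le_sum (f := fun i => v i * v i) (fun i _ => mul_self_nonneg _)
      (Finset.mem_univ b)
  have h2 : 0 < v b * v b := mul_self_pos.2 hb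
  linarith

/-- distinct points impose independent conditions -/
theorem card_points_le_hilb {ι : Type} [DecidableEq ι] (I : Finset ι) (v : ι → Fin N → ℚ)
    (hv : ∀ i ∈ I, v i ≠ 0) (hne : ∀ i ∈ I, ∀ j ∈ I, i ≠ j → ∀ c : ℚ, v i ≠ c • v j)
    (P : Ideal (MvPolynomial (Fin N) ℚ)) (hP : ∀ i ∈ I, P ≤ ptIdeal (v i)) (t : ℕ)
    (ht : I.card ≤ t) : I.card ≤ hilb P t := by
  classical
  have hsep : ∀ i ∈ I, ∀ j ∈ I, i ≠ j → ∃ w : Fin N → ℚ, ∑ k, w k * v j k = 0 ∧
      ∑ k, w k * v i k ≠ 0 := fun i hi j hj hij =>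
    exists_lin_separating (hv j hj) (hne i hi j hj hij)
  choose! w hw0 hw1 using hsep
  let f : {i // i ∈ I} → MvPolynomial (Fin N) ℚ := fun i =>
    (∏ j ∈ I.erase i.1, lin (w i.1 j)) * (lin (v i.1)) ^ (t - (I.card - 1))
  have hfh : ∀ i, (f i).IsHomogeneous t := by
    intro i
    have h1 : (∏ j ∈ I.erase i.1, lin (w i.1 j)).IsHomogeneous (∑ _j ∈ I.erase i.1, 1) :=
      IsHomogeneous.prod _ _ _ fun j _ => lin_hom _
    have h2 := h1.mul ((lin_hom (v i.1)).pow (t - (I.card - 1)))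
    have h3 : (∑ _j ∈ I.erase i.1, 1) + 1 * (t - (I.card - 1)) = t := by
      rw [Finset.sum_const, Finset.card_erase_of_mem i.2, smul_eq_mul, mul_one, one_mul]
      omega
    rwa [h3] at h2
  have hfj : ∀ i j : {i // i ∈ I}, i ≠ j → eval (v j.1) (f i) = 0 := by
    intro i j hij
    have hij' : i.1 ≠ j.1 := fun h => hij (Subtype.ext h)
    simp only [f, map_mul, map_prod]
    rw [Finset.prod_eq_zero (Finset.mem_erase.2 ⟨hij'.symm, j.2⟩), zero_mul]
    rw [eval_lin]
    exact hw0 i.1 i.2 j.1 j.2 hij'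
  have hfi : ∀ i : {i // i ∈ I}, eval (v i.1) (f i) ≠ 0 := by
    intro i
    simp only [f, map_mul, map_prod, map_pow]
    refine mul_ne_zero (Finset.prod_ne_zero_iff.2 fun j hj => ?_)
      (pow_ne_zero _ (eval_lin_self (hv i.1 i.2)))
    rw [eval_lin]
    exact hw1 i.1 i.2 j (Finset.mem_of_mem_erase hj) (Finset.ne_of_mem_erase hj).symm
  have := card_le_hilb P t f hfh ?_
  · simpa using this
  · intro c hc i
    have h1 := eval_eq_zero_of_mem (hP i.1 i.2 hc)
    rw [map_sum, Finset.sum_eq_single i] at h1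
    · rw [smul_eval] at h1
      exact (mul_eq_zero.1 h1).resolve_right (hfi i)
    · intro j _ hj
      rw [smul_eval, hfj j i hj, mul_zero]
    · intro h; exact absurd (Finset.mem_univ _) h

/-- one step of the induction: hyperplane section -/
theorem section_step (P : Ideal (MvPolynomial (Fin N) ℚ)) [hPp : P.IsPrime]
    (hPh : P.IsHomogeneous (homogeneousSubmodule (Fin N) ℚ))
    (ℓ : MvPolynomial (Fin N) ℚ) (hℓ : ℓ.IsHomogeneous 1) (hℓP : ℓ ∉ P)
    (𝒬 : Finset (Ideal (MvPolynomial (Fin N) ℚ)))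
    (h𝒬 : ∀ Q ∈ 𝒬, Q ∈ (P ⊔ Ideal.span {ℓ}).minimalPrimes)
    (hX : ∀ Q ∈ 𝒬, ∃ ℓ' : MvPolynomial (Fin N) ℚ, ℓ'.IsHomogeneous 1 ∧ ℓ' ∉ Q)
    (cnt : Ideal (MvPolynomial (Fin N) ℚ) → ℕ) (K k : ℕ)
    (hIH : ∀ Q ∈ 𝒬, ∃ a, ∀ T, cnt Q * (T + k).choose k ≤ K * hilb Q (T + a)) :
    ∃ a, ∀ T, (∑ Q ∈ 𝒬, cnt Q) * (T + (k + 1)).choose (k + 1) ≤ K * hilb P (T + a) := by
  classical
  set J := P ⊔ Ideal.span {ℓ} with hJ
  have hJh : J.IsHomogeneous (homogeneousSubmodule (Fin N) ℚ) := by
    refine Ideal.IsHomogeneous.sup hPh (Ideal.homogeneous_span _ _ ?_)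
    intro x hx
    rw [Set.mem_singleton_iff] at hx
    rw [hx]
    exact ⟨1, hℓ⟩
  choose! a ha using hIH
  set A := ∑ Q ∈ 𝒬, a Q with hA
  have haA : ∀ Q ∈ 𝒬, a Q ≤ A := fun Q hQ => Finset.single_le_sum (fun _ _ => Nat.zero_le _) hQ
  have hIH' : ∀ Q ∈ 𝒬, ∀ T, cnt Q * (T + k).choose k ≤ K * hilb Q (T + A) := by
    intro Q hQ T
    have h1 := ha Q hQ (T + (A - a Q))
    have h2 : T + (A - a Q) + a Q = T + A := by have := haA Q hQ; omega
    rw [h2] at h1
    refine le_trans (Nat.mul_le_mul_left _ (Nat.choose_le_choose k (by omega))) h1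
  obtain ⟨b, hb⟩ := sum_hilb_le J 𝒬 (fun Q hQ => (h𝒬 Q hQ).isPrime)
    (fun Q hQ f hf m => homogeneousComponent_mem_of_mem (minimalPrimes_hom hJh (h𝒬 Q hQ)) hf m)
    hX (fun Q hQ Q' hQ' hle => le_antisymm hle ((h𝒬 Q hQ).2 (h𝒬 Q' hQ').1 hle))
    (fun Q hQ => (h𝒬 Q hQ).le)
  have hJT : ∀ T, (∑ Q ∈ 𝒬, cnt Q) * (T + k).choose k ≤ K * hilb J (T + A + b) := by
    intro T
    rw [Finset.sum_mul]
    refine le_trans (Finset.sum_le_sum fun Q hQ => hIH' Q hQ T) ?_
    rw [← Finset.mul_sum]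
    exact Nat.mul_le_mul_left _ (hb (T + A))
  have hPJ : P ≤ J := le_sup_left
  have hℓJ : ℓ ∈ J := le_sup_right (a := P) (Ideal.subset_span rfl)
  refine ⟨A + b, fun T => ?_⟩
  induction T with
  | zero =>
    have h1 := hJT 0
    simp only [zero_add, Nat.choose_self, mul_one] at h1 ⊢
    exact h1.trans (Nat.mul_le_mul_left _ (hilb_mono hPJ _))
  | succ T ih =>
    have h1 := hJT (T + 1)
    have h2 := hilb_section P ℓ hℓ hℓP J hPJ hℓJ (T + (A + b))
    have h3 : T + 1 + (k + 1) = (T + 1 + k) + 1 := by ring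
    have h4 : T + (k + 1) = T + 1 + k := by ring
    rw [h3, Nat.choose_succ_succ, mul_add]
    rw [h4] at ih
    have h5 : T + 1 + A + b = T + (A + b) + 1 := by ring
    have h6 : T + 1 + (A + b) = T + (A + b) + 1 := by ring
    rw [h5] at h1
    rw [h6]
    calc _ ≤ K * hilb J (T + (A + b) + 1) + K * hilb P (T + (A + b)) := add_le_add h1 ih
      _ = K * (hilb J (T + (A + b) + 1) + hilb P (T + (A + b))) := by ring
      _ ≤ _ := Nat.mul_le_mul_left _ h2

/-- class bound hypothesis -/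
def ClassBound (N n : ℕ) (Y : ℕ → Set (Fin N → ℚ)) (Kb : ℕ → ℕ) : Prop :=
  ∀ s < n, ∀ (M : Type) [AddCommGroup M] [Module ℚ M] (φ : (Fin N → ℚ) →ₗ[ℚ] M)
    (g : ℕ → Fin N → ℚ), (∀ j < s, g j ∈ Y j) → (∀ j < s, φ (g j) = 0) →
    (LinearIndependent ℚ (fun j : Fin n => g j)) →
    ∀ 𝒞 : Finset M, (∀ c ∈ 𝒞, ∃ w ∈ Y s, φ w = c) → 𝒞.card ≤ Kb s

/-- lin as a linear map to the quotient ring -/
noncomputable def linQ (P : Ideal (MvPolynomial (Fin N) ℚ)) :
    (Fin N → ℚ) →ₗ[ℚ] (MvPolynomial (Fin N) ℚ ⧸ P) where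
  toFun w := Ideal.Quotient.mk P (lin w)
  map_add' w w' := by rw [lin_add, map_add]
  map_smul' c w := by
    rw [lin_smul, map_mul, RingHom.id_apply]
    exact (Algebra.smul_def c (Ideal.Quotient.mk P (lin w))).symm

theorem key {ι : Type} [DecidableEq ι] (n : ℕ) (Y : ℕ → Set (Fin N → ℚ)) (Kb : ℕ → ℕ)
    (hcb : ClassBound N n Y Kb) (v : ι → Fin N → ℚ) (y : ι → ℕ → Fin N → ℚ) :
    ∀ (l : List ℕ), (∀ s ∈ l, s < n) → ∀ (P : Ideal (MvPolynomial (Fin N) ℚ)), P.IsPrime →
      P.IsHomogeneous (homogeneousSubmodule (Fin N) ℚ) → ∀ (I : Finset ι),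
      (∀ i ∈ I, v i ≠ 0) → (∀ i ∈ I, ∀ j ∈ I, i ≠ j → ∀ c : ℚ, v i ≠ c • v j) →
      (∀ i ∈ I, ∀ s < n, y i s ∈ Y s) →
      (∀ i ∈ I, LinearIndependent ℚ (fun j : Fin n => y i j)) →
      (∀ i ∈ I, HasType (v i) (y i) l P) →
      ∃ a, ∀ T, I.card * (T + l.length).choose l.length ≤
        (l.map Kb).prod * hilb P (T + a) := by
  classical
  intro l
  induction l with
  | nil =>
    intro _ P _ _ I hv hne _ _ htype
    refine ⟨I.card, fun T => ?_⟩
    simp only [List.length_nil, add_zero, Nat.choose_zero_right, mul_one, List.map_nil,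
      List.prod_nil, one_mul]
    exact card_points_le_hilb I v hv hne P (fun i hi => htype i hi) _ (by omega)
  | cons s l ih =>
    intro hl P hP hPh I hv hne hY hind htype
    have hsn : s < n := hl s (List.mem_cons_self)
    have hl' : ∀ s ∈ l, s < n := fun a ha => hl a (List.mem_cons_of_mem _ ha)
    rcases I.eq_empty_or_nonempty with hI | ⟨i₀, hi₀⟩
    · subst hI
      exact ⟨0, fun T => by simp⟩
    -- classes
    let cls : ι → MvPolynomial (Fin N) ℚ ⧸ P := fun i => linQ P (y i s)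
    set 𝒞 := I.image cls with h𝒞
    have hcard : 𝒞.card ≤ Kb s := by
      obtain ⟨_, h2, _, _⟩ := htype i₀ hi₀
      refine hcb s hsn _ (linQ P) (y i₀) (fun j hj => hY i₀ hi₀ j (by omega))
        (fun j hj => ?_) (hind i₀ hi₀) 𝒞 ?_
      · exact Ideal.Quotient.eq_zero_iff_mem.2 (h2 j hj)
      · intro c hc
        obtain ⟨i, hi, rfl⟩ := Finset.mem_image.1 hc
        exact ⟨y i s, hY i hi s hsn, rfl⟩
    have hQex : ∀ i ∈ I, ∃ Q ∈ (P ⊔ Ideal.span {lin (y i s)}).minimalPrimes,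
        HasType (v i) (y i) l Q := fun i hi => (htype i hi).2.2.2
    choose! Q hQmin hQtype using hQex
    -- per class
    have hclass : ∀ c ∈ 𝒞, ∃ a, ∀ T, (I.filter (fun i => cls i = c)).card *
        (T + (l.length + 1)).choose (l.length + 1) ≤ (l.map Kb).prod * hilb P (T + a) := by
      intro c hc
      obtain ⟨i₁, hi₁, hi₁c⟩ := Finset.mem_image.1 hc
      set Ic := I.filter (fun i => cls i = c) with hIc
      set ℓ := lin (y i₁ s) with hℓ
      have hsame : ∀ i ∈ Ic, P ⊔ Ideal.span {lin (y i s)} = P ⊔ Ideal.span {ℓ} := by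
        intro i hi
        have hci : cls i = cls i₁ := by rw [hi₁c]; exact (Finset.mem_filter.1 hi).2
        have hdiff : lin (y i s) - ℓ ∈ P := by
          have : Ideal.Quotient.mk P (lin (y i s)) = Ideal.Quotient.mk P ℓ := hci
          rwa [Ideal.Quotient.eq] at this
        apply le_antisymm
        · refine sup_le le_sup_left ?_
          rw [Ideal.span_singleton_le_iff_mem]
          have h1 : lin (y i s) = (lin (y i s) - ℓ) + ℓ := by ring
          rw [h1]
          exact Ideal.add_mem _ (le_sup_left (b := Ideal.span {ℓ}) hdiff)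
            (le_sup_right (a := P) (Ideal.subset_span rfl))
        · refine sup_le le_sup_left ?_
          rw [Ideal.span_singleton_le_iff_mem]
          have h1 : ℓ = -(lin (y i s) - ℓ) + lin (y i s) := by ring
          rw [h1]
          exact Ideal.add_mem _ (le_sup_left (b := Ideal.span {lin (y i s)}) (P.neg_mem hdiff))
            (le_sup_right (a := P) (Ideal.subset_span rfl))
      set 𝒬 := Ic.image Q with h𝒬
      have hIcI : ∀ i ∈ Ic, i ∈ I := fun i hi => (Finset.mem_filter.1 hi).1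
      have h𝒬min : ∀ q ∈ 𝒬, q ∈ (P ⊔ Ideal.span {ℓ}).minimalPrimes := by
        intro q hq
        obtain ⟨i, hi, rfl⟩ := Finset.mem_image.1 hq
        rw [← hsame i hi]
        exact hQmin i (hIcI i hi)
      have hℓP : ℓ ∉ P := (htype i₁ hi₁).2.2.1
      have hJh : (P ⊔ Ideal.span {ℓ}).IsHomogeneous (homogeneousSubmodule (Fin N) ℚ) := by
        refine Ideal.IsHomogeneous.sup hPh (Ideal.homogeneous_span _ _ ?_)
        intro x hx
        rw [Set.mem_singleton_iff] at hx
        rw [hx]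
        exact ⟨1, lin_hom _⟩
      have hstep := section_step P hPh ℓ (lin_hom _) hℓP 𝒬 h𝒬min (by
        intro q hq
        obtain ⟨i, hi, rfl⟩ := Finset.mem_image.1 hq
        refine ⟨lin (v i), lin_hom _, ?_⟩
        intro hmem
        have h1 := (hQtype i (hIcI i hi)).le hmem
        exact eval_lin_self (hv i (hIcI i hi)) (eval_eq_zero_of_mem h1))
        (fun q => (Ic.filter (fun i => Q i = q)).card) ((l.map Kb).prod) l.length (by
          intro q hq
          have hqmin := h𝒬min q hq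
          refine ih hl' q hqmin.isPrime (minimalPrimes_hom hJh hqmin)
            (Ic.filter (fun i => Q i = q)) ?_ ?_ ?_ ?_ ?_
          · intro i hi
            exact hv i (hIcI i (Finset.mem_filter.1 hi).1)
          · intro i hi j hj
            exact hne i (hIcI i (Finset.mem_filter.1 hi).1) j (hIcI j (Finset.mem_filter.1 hj).1)
          · intro i hi
            exact hY i (hIcI i (Finset.mem_filter.1 hi).1)
          · intro i hi
            exact hind i (hIcI i (Finset.mem_filter.1 hi).1)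
          · intro i hi
            obtain ⟨hi1, hi2⟩ := Finset.mem_filter.1 hi
            rw [← hi2]
            exact hQtype i (hIcI i hi1))
      have hsum : ∑ q ∈ 𝒬, (Ic.filter (fun i => Q i = q)).card = Ic.card :=
        (Finset.card_eq_sum_card_image Q Ic).symm
      rw [hsum] at hstep
      exact hstep
    choose! a ha using hclass
    set A := ∑ c ∈ 𝒞, a c with hA
    refine ⟨A, fun T => ?_⟩
    have hIcard : I.card = ∑ c ∈ 𝒞, (I.filter (fun i => cls i = c)).card :=
      Finset.card_eq_sum_card_image cls I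
    rw [List.length_cons, hIcard, Finset.sum_mul]
    have hterm : ∀ c ∈ 𝒞, (I.filter (fun i => cls i = c)).card *
        (T + (l.length + 1)).choose (l.length + 1) ≤ (l.map Kb).prod * hilb P (T + A) := by
      intro c hc
      have h1 := ha c hc (T + (A - a c))
      have h0 : a c ≤ A := Finset.single_le_sum (fun _ _ => Nat.zero_le _) hc
      have h2 : T + (A - a c) + a c = T + A := by omega
      rw [h2] at h1
      refine le_trans (Nat.mul_le_mul_left _ (Nat.choose_le_choose _ (by omega))) h1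
    refine (Finset.sum_le_sum hterm).trans ?_
    rw [Finset.sum_const, smul_eq_mul, List.map_cons, List.prod_cons, mul_assoc]
    exact Nat.mul_le_mul_right _ hcard

end Pool.Agent.V11292.SZ
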