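import Mathlib
import Pool.Agent.V11292.SZ.CB

/-!
Counting points through flags of subspaces; the limit lemma; exponents.
-/

namespace Pool.Agent.V11292.SZ

open MvPolynomial Finset Filter Topology

variable {N : ℕ}

theorem flag_count {ι : Type} [DecidableEq ι] (I : Finset ι) (n : ℕ) (Y : ℕ → Set (Fin N → ℚ))
    (Kb : ℕ → ℕ) (hcb : ClassBound N n Y Kb) (y : ι → ℕ → Fin N → ℚ)
    (hY : ∀ i ∈ I, ∀ s < n, y i s ∈ Y s)
    (hind : ∀ i ∈ I, LinearIndependent ℚ (fun j : Fin n => y i j)) [DecidableEq (Submodule ℚ (Fin N → ℚ))] :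
    ∀ s, s ≤ n → (I.image (fun i => Submodule.span ℚ (y i '' {j | j < s}))).card ≤
      ∏ j ∈ range s, Kb j := by
  classical
  intro s
  induction s with
  | zero =>
    intro _
    refine le_trans (Finset.card_le_one.2 ?_) (by simp)
    intro a ha b hb
    obtain ⟨i, _, rfl⟩ := Finset.mem_image.1 ha
    obtain ⟨j, _, rfl⟩ := Finset.mem_image.1 hb
    simp
  | succ s ih =>
    intro hs
    have ih' := ih (by omega)
    set A := I.image (fun i => Submodule.span ℚ (y i '' {j | j < s})) with hA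
    -- the next subspace, from the previous one and the class
    let nxt : (Σ U : Submodule ℚ (Fin N → ℚ), (Fin N → ℚ) ⧸ U) → Submodule ℚ (Fin N → ℚ) :=
      fun p => Submodule.comap p.1.mkQ (Submodule.span ℚ {p.2})
    let fib : Submodule ℚ (Fin N → ℚ) → Finset ι := fun U =>
      I.filter (fun i => Submodule.span ℚ (y i '' {j | j < s}) = U)
    have hsub : I.image (fun i => Submodule.span ℚ (y i '' {j | j < s + 1})) ⊆
        A.biUnion (fun U => ((fib U).image (fun i => U.mkQ (y i s))).image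
          (fun c => nxt ⟨U, c⟩)) := by
      intro V hV
      obtain ⟨i, hi, rfl⟩ := Finset.mem_image.1 hV
      rw [Finset.mem_biUnion]
      refine ⟨Submodule.span ℚ (y i '' {j | j < s}), Finset.mem_image_of_mem _ hi, ?_⟩
      rw [Finset.mem_image]
      refine ⟨_, Finset.mem_image_of_mem _ (Finset.mem_filter.2 ⟨hi, rfl⟩), ?_⟩
      simp only [nxt]
      have h1 : Submodule.span ℚ {(Submodule.span ℚ (y i '' {j | j < s})).mkQ (y i s)} =
          Submodule.map (Submodule.span ℚ (y i '' {j | j < s})).mkQ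
            (Submodule.span ℚ {y i s}) := by
        rw [Submodule.map_span, Set.image_singleton]
      rw [h1, Submodule.comap_map_mkQ, ← Submodule.span_union]
      congr 1
      ext w
      simp only [Set.mem_union, Set.mem_image, Set.mem_ofPred_eq, Set.mem_singleton_iff]
      constructor
      · rintro (⟨j, hj, rfl⟩ | rfl)
        · exact ⟨j, by omega, rfl⟩
        · exact ⟨s, by omega, rfl⟩
      · rintro ⟨j, hj, rfl⟩
        rcases Nat.lt_succ_iff_lt_or_eq.1 hj with h | h
        · exact Or.inl ⟨j, h, rfl⟩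
        · right; rw [h]
    calc _ ≤ _ := Finset.card_le_card hsub
      _ ≤ ∑ U ∈ A, _ := Finset.card_biUnion_le
      _ ≤ ∑ U ∈ A, Kb s := by
        refine Finset.sum_le_sum fun U hU => ?_
        refine le_trans Finset.card_image_le ?_
        obtain ⟨i₀, hi₀, hi₀U⟩ := Finset.mem_image.1 hU
        refine hcb s (by omega) _ U.mkQ (y i₀) (fun j hj => hY i₀ hi₀ j (by omega))
          (fun j hj => ?_) (hind i₀ hi₀) _ ?_
        · rw [Submodule.mkQ_apply, Submodule.Quotient.mk_eq_zero, ← hi₀U]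
          exact Submodule.subset_span ⟨j, hj, rfl⟩
        · intro c hc
          obtain ⟨i, hi, rfl⟩ := Finset.mem_image.1 hc
          exact ⟨y i s, hY i (Finset.mem_filter.1 hi).1 s (by omega), rfl⟩
      _ = A.card * Kb s := by rw [Finset.sum_const, smul_eq_mul]
      _ ≤ (∏ j ∈ range s, Kb j) * Kb s := Nat.mul_le_mul_right _ ih'
      _ = _ := (Finset.prod_range_succ _ _).symm

/-- total count -/
theorem total_count {ι : Type} [DecidableEq ι] (I : Finset ι) (n : ℕ)
    (Y : ℕ → Set (Fin N → ℚ)) (Kb : ℕ → ℕ) (hcb : ClassBound N n Y Kb)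
    (v : ι → Fin N → ℚ) (y : ι → ℕ → Fin N → ℚ)
    (hv : ∀ i ∈ I, v i ≠ 0) (hne : ∀ i ∈ I, ∀ j ∈ I, i ≠ j → ∀ c : ℚ, v i ≠ c • v j)
    (hY : ∀ i ∈ I, ∀ s < n, y i s ∈ Y s)
    (hind : ∀ i ∈ I, LinearIndependent ℚ (fun j : Fin n => y i j))
    (hyv : ∀ i ∈ I, ∀ j < n, ∑ k, y i j k * v i k = 0)
    (hspan : ∀ i ∈ I, ∀ w : Fin N → ℚ, ∑ k, w k * v i k = 0 →
      w ∈ Submodule.span ℚ (y i '' {j | j < n})) :
    I.card ≤ ∏ j ∈ range n, Kb j := by
  classical
  refine le_trans (Finset.card_le_card_of_injOn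
    (fun i => Submodule.span ℚ (y i '' {j | j < n})) (t := I.image _)
    (fun i hi => Finset.mem_image_of_mem _ hi) ?_) (flag_count I n Y Kb hcb y hY hind n le_rfl)
  intro i hi j hj hij
  by_contra hne'
  obtain ⟨w, hw1, hw2⟩ := exists_lin_separating (hv j hj) (hne i hi j hj hne')
  have h1 := hspan j hj w hw1
  have hij' : Submodule.span ℚ (y i '' {j | j < n}) = Submodule.span ℚ (y j '' {j | j < n}) := hij
  rw [← hij'] at h1
  apply hw2
  clear hw1 hw2
  induction h1 using Submodule.span_induction with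
  | mem x hx =>
    obtain ⟨s, hs, rfl⟩ := hx
    exact hyv i hi s hs
  | zero => simp
  | add a b _ _ ha hb => simp only [Pi.add_apply, add_mul, Finset.sum_add_distrib, ha, hb, add_zero]
  | smul c a _ ha => simp only [Pi.smul_apply, smul_eq_mul, mul_assoc, ← Finset.mul_sum, ha, mul_zero]

/-- `n` independent vectors orthogonal to `v ≠ 0` span `v^⊥`. -/
theorem span_of_indep {n : ℕ} (v : Fin (n + 1) → ℚ) (hv : v ≠ 0) (y : ℕ → Fin (n + 1) → ℚ)
    (hind : LinearIndependent ℚ (fun j : Fin n => y j))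
    (hyv : ∀ j < n, ∑ k, y j k * v k = 0) (w : Fin (n + 1) → ℚ) (hw : ∑ k, w k * v k = 0) :
    w ∈ Submodule.span ℚ (y '' {j | j < n}) := by
  classical
  obtain ⟨i₀, hi₀⟩ := Function.ne_iff.1 hv
  have hi₀' : v i₀ ≠ 0 := hi₀
  let φ : (Fin (n + 1) → ℚ) →ₗ[ℚ] ℚ := ∑ i, (v i) • LinearMap.proj i
  have hφ : ∀ w, φ w = ∑ i, w i * v i := by
    intro w
    simp [φ, LinearMap.sum_apply, mul_comm]
  have hsurj : LinearMap.range φ = ⊤ := by
    rw [LinearMap.range_eq_top]
    intro c
    refine ⟨Pi.single i₀ (c / v i₀), ?_⟩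
    rw [hφ, Finset.sum_eq_single i₀]
    · simp only [Pi.single_eq_same]
      field_simp
    · intro b _ hb; simp [hb]
    · intro h; exact absurd (Finset.mem_univ _) h
  have h1 := LinearMap.finrank_range_add_finrank_ker φ
  rw [hsurj, finrank_top] at h1
  simp only [Module.finrank_self, Module.finrank_fintype_fun_eq_card, Fintype.card_fin] at h1
  have hrange : y '' {j | j < n} = Set.range (fun j : Fin n => y j) := by
    ext w
    simp only [Set.mem_image, Set.mem_ofPred_eq, Set.mem_range]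
    constructor
    · rintro ⟨j, hj, rfl⟩
      exact ⟨⟨j, hj⟩, rfl⟩
    · rintro ⟨j, rfl⟩
      exact ⟨j, j.2, rfl⟩
  have hle : Submodule.span ℚ (y '' {j | j < n}) ≤ LinearMap.ker φ := by
    rw [Submodule.span_le]
    rintro _ ⟨j, hj, rfl⟩
    rw [SetLike.mem_coe, LinearMap.mem_ker, hφ]
    exact hyv j hj
  have h2 : Module.finrank ℚ (Submodule.span ℚ (y '' {j | j < n})) = n := by
    rw [hrange, finrank_span_eq_card hind, Fintype.card_fin]
  have h3 : Submodule.span ℚ (y '' {j | j < n}) = LinearMap.ker φ :=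
    Submodule.eq_of_le_of_finrank_eq hle (by omega)
  rw [h3, LinearMap.mem_ker, hφ]
  exact hw

/-- the limit lemma -/
theorem le_of_limit (m K k a : ℕ) (h : ℕ → ℕ) (e : ℕ)
    (hlim : Tendsto (fun t : ℕ => (k.factorial : ℝ) * h t / (t : ℝ) ^ k) atTop (𝓝 (e : ℝ)))
    (hle : ∀ T, m * (T + k).choose k ≤ K * h (T + a)) : m ≤ K * e := by
  have h1 : Tendsto (fun T : ℕ => (K : ℝ) * ((k.factorial : ℝ) * h (T + a) /
      ((T + a : ℕ) : ℝ) ^ k)) atTop (𝓝 ((K : ℝ) * e)) := by
    have := hlim.comp (tendsto_add_atTop_nat a)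
    exact this.const_mul _
  have h2 : Tendsto (fun T : ℕ => (m : ℝ) * ((T : ℝ) / ((T + a : ℕ) : ℝ)) ^ k) atTop
      (𝓝 ((m : ℝ) * 1 ^ k)) := by
    have h3 : Tendsto (fun T : ℕ => (T : ℝ) / ((T + a : ℕ) : ℝ)) atTop (𝓝 1) := by
      have := tendsto_natCast_div_add_atTop (a : ℝ)
      simpa using this
    exact (h3.pow k).const_mul _
  rw [one_pow, mul_one] at h2
  have h3 : (m : ℝ) ≤ (K : ℝ) * e := by
    refine le_of_tendsto_of_tendsto h2 h1 ?_
    filter_upwards [eventually_ge_atTop 1] with T hT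
    have hTa : (0 : ℝ) < ((T + a : ℕ) : ℝ) := by
      have : 0 < T + a := by omega
      exact_mod_cast this
    rw [div_pow, ← mul_div_assoc, ← mul_div_assoc]
    refine div_le_div_of_nonneg_right ?_ (by positivity)
    have h4 : (T : ℝ) ^ k ≤ (k.factorial : ℝ) * (T + k).choose k := by
      have h5 : T ^ k ≤ k.factorial * (T + k).choose k := by
        rw [← Nat.descFactorial_eq_factorial_mul_choose]
        calc T ^ k ≤ (T + k + 1 - k) ^ k := Nat.pow_le_pow_left (by omega) _
          _ ≤ _ := Nat.pow_sub_le_descFactorial _ _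
      exact_mod_cast h5
    have h6 : (m : ℝ) * (T + k).choose k ≤ K * h (T + a) := by exact_mod_cast hle T
    calc (m : ℝ) * (T : ℝ) ^ k ≤ m * ((k.factorial : ℝ) * (T + k).choose k) :=
          mul_le_mul_of_nonneg_left h4 (by positivity)
      _ = (k.factorial : ℝ) * (m * (T + k).choose k) := by ring
      _ ≤ (k.factorial : ℝ) * (K * h (T + a)) := mul_le_mul_of_nonneg_left h6 (by positivity)
      _ = _ := by ring
  exact_mod_cast h3

end Pool.Agent.V11292.SZ
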