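import Mathlib

/-!
Geometry of numbers: short bases of `x^⊥ ∩ ℤ^{n+1}`.
-/

namespace Pool.Agent.V11292.SZ

open MeasureTheory Metric Module Finset Function ENNReal

/-- packing bound in a finite-dimensional normed space -/
theorem card_le_of_separated' {E : Type*} [NormedAddCommGroup E] [NormedSpace ℝ E]
    [FiniteDimensional ℝ E] (s : Finset E) (R ρ : ℝ) (hR : 0 ≤ R) (hρ : 0 < ρ)
    (hs : ∀ c ∈ s, ‖c‖ ≤ R) (h : ∀ c ∈ s, ∀ d ∈ s, c ≠ d → ρ ≤ ‖c - d‖) :
    (s.card : ℝ) ≤ ((2 * R + ρ) / ρ) ^ finrank ℝ E := by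
  borelize E
  let μ : Measure E := Measure.addHaar
  let δ : ℝ := ρ / 2
  let ρ' : ℝ := δ + R
  have δpos : 0 < δ := by positivity
  have ρpos : 0 < ρ' := by positivity
  set A := ⋃ c ∈ s, ball (c : E) δ with hA
  have D : Set.Pairwise (s : Set E) (Disjoint on fun c => ball (c : E) δ) := by
    rintro c hc d hd hcd
    apply ball_disjoint_ball
    rw [dist_eq_norm]
    have := h c hc d hd hcd
    simp only [δ]
    linarith
  have A_subset : A ⊆ ball (0 : E) ρ' := by
    refine Set.iUnion₂_subset fun x hx => ?_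
    apply ball_subset_ball'
    calc
      δ + dist x 0 ≤ δ + R := by rw [dist_zero_right]; exact add_le_add le_rfl (hs x hx)
      _ = ρ' := rfl
  have I :
    (s.card : ℝ≥0∞) * ENNReal.ofReal (δ ^ finrank ℝ E) * μ (ball 0 1) ≤
      ENNReal.ofReal (ρ' ^ finrank ℝ E) * μ (ball 0 1) :=
    calc
      (s.card : ℝ≥0∞) * ENNReal.ofReal (δ ^ finrank ℝ E) * μ (ball 0 1) = μ A := by
        rw [hA, measure_biUnion_finset D fun c _ => measurableSet_ball]
        simp only [μ.addHaar_ball_of_pos _ δpos]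
        simp only [Finset.sum_const, nsmul_eq_mul, mul_assoc]
      _ ≤ μ (ball (0 : E) ρ') := measure_mono A_subset
      _ = ENNReal.ofReal (ρ' ^ finrank ℝ E) * μ (ball 0 1) := by
        simp only [μ.addHaar_ball_of_pos _ ρpos]
  have J : (s.card : ℝ≥0∞) * ENNReal.ofReal (δ ^ finrank ℝ E) ≤
      ENNReal.ofReal (ρ' ^ finrank ℝ E) :=
    (ENNReal.mul_le_mul_iff_left (measure_ball_pos _ _ zero_lt_one).ne' measure_ball_lt_top.ne).1 I
  have K : (s.card : ℝ) * δ ^ finrank ℝ E ≤ ρ' ^ finrank ℝ E := by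
    have := ENNReal.toReal_le_of_le_ofReal (pow_nonneg ρpos.le _) J
    rwa [ENNReal.toReal_mul, ENNReal.toReal_natCast, ENNReal.toReal_ofReal (by positivity)] at this
  have h1 : (2 * R + ρ) / ρ = ρ' / δ := by
    simp only [ρ', δ]
    field_simp
    ring
  rw [h1, div_pow, le_div_iff₀ (by positivity)]
  exact K

variable {n : ℕ}

/-- integer vectors orthogonal to `x` with all entries `< R` in absolute value -/
noncomputable def Lset (x : Fin (n + 1) → ℤ) (R : ℕ) : Finset (Fin (n + 1) → ℤ) :=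
  (Fintype.piFinset fun _ => Finset.Ioo (-(R : ℤ)) R).filter (fun y => ∑ i, y i * x i = 0)

theorem mem_Lset {x : Fin (n + 1) → ℤ} {R : ℕ} {y : Fin (n + 1) → ℤ} :
    y ∈ Lset x R ↔ (∀ i, |y i| < R) ∧ ∑ i, y i * x i = 0 := by
  unfold Lset
  rw [Finset.mem_filter, Fintype.mem_piFinset]
  simp only [Finset.mem_Ioo, abs_lt]

theorem zero_mem_Lset {x : Fin (n + 1) → ℤ} {R : ℕ} (hR : 0 < R) : (0 : Fin (n + 1) → ℤ) ∈ Lset x R := by
  rw [mem_Lset]
  simp [hR]

def castR (y : Fin (n + 1) → ℤ) : Fin (n + 1) → ℝ := fun i => (y i : ℝ)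

theorem castR_sub (y z : Fin (n + 1) → ℤ) : castR (y - z) = castR y - castR z := by
  funext i; simp [castR]

theorem castR_inj : Function.Injective (castR (n := n)) := by
  intro y z h
  funext i
  have := congrFun h i
  simpa [castR] using this

noncomputable def Vs (x : Fin (n + 1) → ℤ) (m : ℕ) : Submodule ℝ (Fin (n + 1) → ℝ) :=
  Submodule.span ℝ (castR '' (Lset x (2 ^ m) : Set (Fin (n + 1) → ℤ)))

noncomputable def rk (x : Fin (n + 1) → ℤ) (m : ℕ) : ℕ := finrank ℝ (Vs x m)

theorem Lset_mono {x : Fin (n + 1) → ℤ} {R R' : ℕ} (h : R ≤ R') : Lset x R ⊆ Lset x R' := by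
  intro y hy
  rw [mem_Lset] at hy ⊢
  exact ⟨fun i => (hy.1 i).trans_le (by exact_mod_cast h), hy.2⟩

theorem Vs_mono {x : Fin (n + 1) → ℤ} {m m' : ℕ} (h : m ≤ m') : Vs x m ≤ Vs x m' := by
  apply Submodule.span_mono
  apply Set.image_mono
  exact_mod_cast Lset_mono (Nat.pow_le_pow_right (by norm_num) h)

theorem rk_mono {x : Fin (n + 1) → ℤ} {m m' : ℕ} (h : m ≤ m') : rk x m ≤ rk x m' :=
  Submodule.finrank_mono (Vs_mono h)

theorem rk_zero (x : Fin (n + 1) → ℤ) : rk x 0 = 0 := by
  unfold rk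
  have : Vs x 0 = ⊥ := by
    unfold Vs
    rw [Submodule.span_eq_bot]
    rintro _ ⟨y, hy, rfl⟩
    have hy' : y ∈ Lset x (2 ^ 0) := hy
    rw [mem_Lset] at hy'
    funext i
    have := hy'.1 i
    simp only [pow_zero, Nat.cast_one, Int.abs_lt_one_iff] at this
    simp [castR, this]
  rw [this, finrank_bot]

/-- the covering step -/
theorem card_Lset_le (x : Fin (n + 1) → ℤ) {m m' : ℕ} (h : m' ≤ m) :
    (Lset x (2 ^ m)).card ≤ (3 * 2 ^ (m - m')) ^ rk x m * (Lset x (2 ^ m')).card := by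
  classical
  -- maximal separated subset
  let S : Finset (Finset (Fin (n + 1) → ℤ)) := (Lset x (2 ^ m)).powerset.filter
    (fun A => ∀ c ∈ A, ∀ d ∈ A, c ≠ d → c - d ∉ Lset x (2 ^ m'))
  have hSne : S.Nonempty := ⟨∅, by simp [S]⟩
  obtain ⟨A, hAS, hAmax⟩ := Finset.exists_max_image S Finset.card hSne
  obtain ⟨hAsub, hAsep⟩ := Finset.mem_filter.1 hAS
  rw [Finset.mem_powerset] at hAsub
  have hsub : ∀ y ∈ Lset x (2 ^ m), ∀ c ∈ Lset x (2 ^ m), c - y ∈ Lset x (2 ^ m') →
      y - c ∈ Lset x (2 ^ m') := by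
    intro y _ c _ hcy
    rw [mem_Lset] at hcy ⊢
    refine ⟨fun i => ?_, ?_⟩
    · rw [Pi.sub_apply, abs_sub_comm]; exact hcy.1 i
    · have := hcy.2
      simp only [Pi.sub_apply, sub_mul, Finset.sum_sub_distrib] at this ⊢
      linarith
  have hcov : ∀ y ∈ Lset x (2 ^ m), ∃ c ∈ A, y - c ∈ Lset x (2 ^ m') := by
    intro y hy
    by_contra hcon
    push Not at hcon
    have hyA : y ∉ A := by
      intro hyA
      apply hcon y hyA
      rw [sub_self]
      exact zero_mem_Lset (by positivity)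
    have hins : insert y A ∈ S := by
      rw [Finset.mem_filter, Finset.mem_powerset]
      refine ⟨Finset.insert_subset hy hAsub, ?_⟩
      intro c hc d hd hcd
      rcases Finset.mem_insert.1 hc with hc2 | hc2
      · rcases Finset.mem_insert.1 hd with hd2 | hd2
        · exact absurd (hc2.trans hd2.symm) hcd
        · rw [hc2]; exact hcon d hd2
      · rcases Finset.mem_insert.1 hd with hd2 | hd2
        · intro hmem
          rw [hd2] at hmem
          exact hcon c hc2 (hsub _ hy _ (hAsub hc2) hmem)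
        · exact hAsep c hc2 d hd2 hcd
    have := hAmax _ hins
    rw [Finset.card_insert_of_notMem hyA] at this
    omega
  have h1 : (Lset x (2 ^ m)).card ≤ A.card * (Lset x (2 ^ m')).card := by
    have hsubset : Lset x (2 ^ m) ⊆ (A ×ˢ Lset x (2 ^ m')).image (fun p => p.1 + p.2) := by
      intro y hy
      obtain ⟨c, hc, hcy⟩ := hcov y hy
      rw [Finset.mem_image]
      exact ⟨(c, y - c), Finset.mem_product.2 ⟨hc, hcy⟩, by simp⟩
    calc _ ≤ _ := Finset.card_le_card hsubset
      _ ≤ _ := Finset.card_image_le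
      _ = _ := Finset.card_product _ _
  -- the packing bound
  have h2 : A.card ≤ (3 * 2 ^ (m - m')) ^ rk x m := by
    let f : {c // c ∈ A} → Vs x m := fun c => ⟨castR c.1,
      Submodule.subset_span ⟨c.1, hAsub c.2, rfl⟩⟩
    have hfinj : Function.Injective f := by
      intro c d hcd
      have := congrArg Subtype.val hcd
      exact Subtype.ext (castR_inj this)
    let s : Finset (Vs x m) := Finset.univ.map ⟨f, hfinj⟩
    have hscard : s.card = A.card := by simp [s]
    have h3 := card_le_of_separated' s ((2 : ℝ) ^ m) ((2 : ℝ) ^ m') (by positivity)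
      (by positivity) ?_ ?_
    · rw [hscard] at h3
      have h4 : ((2 * 2 ^ m + 2 ^ m') / 2 ^ m' : ℝ) ≤ 3 * 2 ^ (m - m') := by
        rw [div_le_iff₀ (by positivity), mul_assoc, ← pow_add, Nat.sub_add_cancel h]
        have : (2 : ℝ) ^ m' ≤ 2 ^ m := pow_le_pow_right₀ (by norm_num) h
        linarith
      have h5 : (A.card : ℝ) ≤ (3 * 2 ^ (m - m')) ^ rk x m := by
        refine h3.trans ?_
        exact pow_le_pow_left₀ (by positivity) h4 _
      exact_mod_cast h5
    · intro c hc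
      obtain ⟨a, _, rfl⟩ := Finset.mem_map.1 hc
      change ‖castR a.1‖ ≤ _
      rw [pi_norm_le_iff_of_nonneg (by positivity)]
      intro i
      have := (mem_Lset.1 (hAsub a.2)).1 i
      simp only [castR, Real.norm_eq_abs]
      have h6 : |a.1 i| ≤ (2 ^ m : ℕ) := this.le
      rw [← Int.cast_abs]
      exact_mod_cast h6
    · intro c hc d hd hcd
      obtain ⟨a, _, rfl⟩ := Finset.mem_map.1 hc
      obtain ⟨b, _, rfl⟩ := Finset.mem_map.1 hd
      have hab : a.1 ≠ b.1 := by
        intro hh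
        exact hcd (by rw [Subtype.ext hh])
      have h6 := hAsep a.1 a.2 b.1 b.2 hab
      change _ ≤ ‖castR a.1 - castR b.1‖
      rw [← castR_sub]
      by_contra hcon
      push Not at hcon
      apply h6
      rw [mem_Lset]
      constructor
      · intro i
        have h7 : ‖castR (a.1 - b.1) i‖ < 2 ^ m' := lt_of_le_of_lt (norm_le_pi_norm _ i) hcon
        simp only [castR, Real.norm_eq_abs, ← Int.cast_abs] at h7
        exact_mod_cast h7
      · have e1 := (mem_Lset.1 (hAsub a.2)).2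
        have e2 := (mem_Lset.1 (hAsub b.2)).2
        simp only [Pi.sub_apply, sub_mul, Finset.sum_sub_distrib]
        rw [e1, e2, sub_zero]
  exact h1.trans (Nat.mul_le_mul_right _ h2)

end Pool.Agent.V11292.SZ
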