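import Mathlib
import Pool.Agent.V11292.SZ.GN

/-!
Geometry of numbers: short bases of `x^⊥ ∩ ℤ^{n+1}`.
-/

namespace Pool.Agent.V11292.SZ

open Module Finset Function

variable {n : ℕ}

theorem exists_ne_coord {x : Fin (n + 1) → ℤ} (hx : x ≠ 0) : ∃ i, x i ≠ 0 := by
  obtain ⟨i, hi⟩ := Function.ne_iff.1 hx
  exact ⟨i, hi⟩

theorem one_le_B {x : Fin (n + 1) → ℤ} (hx : x ≠ 0) {B : ℕ} (hB : ∀ i, |x i| ≤ B) : 1 ≤ B := by
  obtain ⟨i, hi⟩ := exists_ne_coord hx
  have := hB i
  have h2 : 0 < |x i| := abs_pos.2 hi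
  omega

/-- pigeonhole lower bound -/
theorem le_card_Lset (x : Fin (n + 1) → ℤ) (hx : x ≠ 0) (B : ℕ) (hB : ∀ i, |x i| ≤ B) (m : ℕ) :
    2 ^ (m * n) ≤ (Lset x (2 ^ m)).card * (3 * (n + 1) * B) := by
  classical
  have hB1 := one_le_B hx hB
  set box : Finset (Fin (n + 1) → ℤ) := Fintype.piFinset fun _ => Finset.Ico (0 : ℤ) (2 ^ m)
    with hbox
  set M : ℕ := (n + 1) * 2 ^ m * B with hM
  have hM1 : 1 ≤ M := by
    have h1 : 1 ≤ 2 ^ m := Nat.one_le_two_pow
    have h2 : 1 * 1 * 1 ≤ (n + 1) * 2 ^ m * B :=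
      Nat.mul_le_mul (Nat.mul_le_mul (by omega) h1) hB1
    simpa using h2
  have hmaps : ∀ y ∈ box, (∑ i, y i * x i) ∈ Finset.Icc (-(M : ℤ)) M := by
    intro y hy
    rw [hbox, Fintype.mem_piFinset] at hy
    rw [Finset.mem_Icc, ← abs_le]
    calc |∑ i, y i * x i| ≤ ∑ i, |y i * x i| := Finset.abs_sum_le_sum_abs _ _
      _ ≤ ∑ _i : Fin (n + 1), (2 ^ m * B : ℤ) := by
        refine Finset.sum_le_sum fun i _ => ?_
        rw [abs_mul]
        have h1 := Finset.mem_Ico.1 (hy i)
        have h2 : |y i| ≤ 2 ^ m := by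
          rw [abs_of_nonneg h1.1]; exact h1.2.le
        exact mul_le_mul h2 (hB i) (abs_nonneg _) (by positivity)
      _ = M := by
        rw [Finset.sum_const, Finset.card_univ, Fintype.card_fin, nsmul_eq_mul, hM]
        push_cast
        ring
  have hfib : ∀ b ∈ Finset.Icc (-(M : ℤ)) M,
      (box.filter (fun y => ∑ i, y i * x i = b)).card ≤ (Lset x (2 ^ m)).card := by
    intro b _
    rcases (box.filter (fun y => ∑ i, y i * x i = b)).eq_empty_or_nonempty with he | ⟨y₀, hy₀⟩
    · rw [he]; simp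
    · obtain ⟨hy₀1, hy₀2⟩ := Finset.mem_filter.1 hy₀
      rw [hbox, Fintype.mem_piFinset] at hy₀1
      refine Finset.card_le_card_of_injOn (fun y => y - y₀) ?_ ?_
      · intro y hy
        obtain ⟨hy1, hy2⟩ := Finset.mem_filter.1 (Finset.mem_coe.1 hy)
        rw [hbox, Fintype.mem_piFinset] at hy1
        rw [Finset.mem_coe, mem_Lset]
        constructor
        · intro i
          have h1 := Finset.mem_Ico.1 (hy1 i)
          have h2 := Finset.mem_Ico.1 (hy₀1 i)
          beta_reduce
          rw [Pi.sub_apply, abs_lt]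
          push_cast
          constructor <;> linarith [h1.1, h1.2, h2.1, h2.2]
        · simp only [Pi.sub_apply, sub_mul, Finset.sum_sub_distrib]
          rw [hy2, hy₀2, sub_self]
      · intro y _ z _ h
        exact sub_left_injective h
  have h1 := Finset.card_le_mul_card_image_of_maps_to hmaps _ hfib
  have h2 : box.card = (2 ^ m) ^ (n + 1) := by
    rw [hbox, Fintype.card_piFinset]
    simp only [Int.card_Ico, sub_zero, Finset.prod_const, Finset.card_univ, Fintype.card_fin]
    congr 1
  have h3 : (Finset.Icc (-(M : ℤ)) M).card = 2 * M + 1 := by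
    rw [Int.card_Icc]
    omega
  rw [h2, h3] at h1
  have h4 : (2 ^ m) ^ (n + 1) ≤ (Lset x (2 ^ m)).card * (3 * M) := by
    refine h1.trans (Nat.mul_le_mul_left _ (by omega))
  have h5 : 2 ^ (m * n) * 2 ^ m ≤ (Lset x (2 ^ m)).card * (3 * (n + 1) * B) * 2 ^ m := by
    calc 2 ^ (m * n) * 2 ^ m = (2 ^ m) ^ (n + 1) := by rw [← pow_mul, ← pow_add]; ring_nf
      _ ≤ _ := h4
      _ = _ := by rw [hM]; ring
  exact Nat.le_of_mul_le_mul_right h5 (by positivity)

/-- the jump positions of the rank function -/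
noncomputable def aE (x : Fin (n + 1) → ℤ) (j : ℕ) : ℕ := sInf {m | j < rk x m}

theorem aE_le {x : Fin (n + 1) → ℤ} {j m : ℕ} (h : j < rk x m) : aE x j ≤ m := Nat.sInf_le h

theorem lt_rk_aE {x : Fin (n + 1) → ℤ} {j m : ℕ} (h : j < rk x m) : j < rk x (aE x j) :=
  Nat.sInf_mem (s := {m | j < rk x m}) ⟨m, h⟩

theorem aE_mono {x : Fin (n + 1) → ℤ} {j k m : ℕ} (hjk : j ≤ k) (h : k < rk x m) :
    aE x j ≤ aE x k := aE_le (hjk.trans_lt (lt_rk_aE h))

/-- Minkowski's second theorem (crude upper bound) -/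
theorem card_mul_le (x : Fin (n + 1) → ℤ) (D : ℕ) (hD : 6 ^ n ≤ D) :
    ∀ r, r ≤ n → ∀ m, rk x m = r →
      (Lset x (2 ^ m)).card * 2 ^ (∑ j ∈ Finset.range r, aE x j) ≤ D ^ r * 2 ^ (m * r) := by
  intro r
  induction r using Nat.strong_induction_on with
  | _ r ih =>
    intro hrn m hm
    rcases Nat.eq_zero_or_pos r with hr | hr
    · subst hr
      have hV : Vs x m = ⊥ := Submodule.finrank_eq_zero.1 hm
      have hL : Lset x (2 ^ m) ⊆ {0} := by
        intro y hy
        have h1 : castR y ∈ Vs x m := Submodule.subset_span ⟨y, hy, rfl⟩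
        rw [hV, Submodule.mem_bot] at h1
        rw [Finset.mem_singleton]
        apply castR_inj
        rw [h1]
        funext i; simp [castR]
      have := Finset.card_le_card hL
      simpa using this
    · have hlt : r - 1 < rk x m := by omega
      set b := aE x (r - 1) with hb
      have hbm : b ≤ m := aE_le hlt
      have hrb : r - 1 < rk x b := lt_rk_aE hlt
      have hb1 : 1 ≤ b := by
        by_contra hcon
        have : b = 0 := by omega
        rw [this, rk_zero] at hrb
        omega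
      set m' := b - 1 with hm'
      set i' := rk x m' with hi'
      have hi'r : i' < r := by
        by_contra hcon
        push Not at hcon
        have : b ≤ m' := aE_le (by omega : r - 1 < rk x m')
        omega
      have hIH := ih i' hi'r (by omega) m' rfl
      have hcov := card_Lset_le x (show m' ≤ m by omega)
      rw [hm] at hcov
      have hsum : ∑ j ∈ Finset.range r, aE x j = ∑ j ∈ Finset.range i', aE x j + (r - i') * b := by
        rw [← Finset.sum_range_add_sum_Ico _ hi'r.le]
        congr 1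
        rw [Finset.sum_congr rfl (g := fun _ => b), Finset.sum_const, Nat.card_Ico, smul_eq_mul]
        intro j hj
        rw [Finset.mem_Ico] at hj
        apply le_antisymm
        · exact aE_mono (by omega) hlt
        · by_contra hcon
          push Not at hcon
          have h1 : j < rk x (aE x j) := lt_rk_aE (m := m) (by omega)
          have h2 : rk x (aE x j) ≤ rk x m' := rk_mono (by omega)
          omega
      rw [hsum]
      have e1 : m - m' + m' = m := by omega
      calc (Lset x (2 ^ m)).card * 2 ^ (∑ j ∈ Finset.range i', aE x j + (r - i') * b)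
          ≤ ((3 * 2 ^ (m - m')) ^ r * (Lset x (2 ^ m')).card) *
            2 ^ (∑ j ∈ Finset.range i', aE x j + (r - i') * b) := Nat.mul_le_mul_right _ hcov
        _ = (3 * 2 ^ (m - m')) ^ r * 2 ^ ((r - i') * b) *
            ((Lset x (2 ^ m')).card * 2 ^ (∑ j ∈ Finset.range i', aE x j)) := by
            rw [pow_add]; ring
        _ ≤ (3 * 2 ^ (m - m')) ^ r * 2 ^ ((r - i') * b) * (D ^ i' * 2 ^ (m' * i')) :=
            Nat.mul_le_mul_left _ hIH
        _ = 3 ^ r * D ^ i' * 2 ^ ((m - m') * r + (r - i') * b + m' * i') := by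
            rw [mul_pow, ← pow_mul, pow_add, pow_add]; ring
        _ ≤ 3 ^ r * D ^ i' * 2 ^ (r + m * r) := by
            refine Nat.mul_le_mul_left _ (Nat.pow_le_pow_right (by norm_num) ?_)
            obtain ⟨d, hd⟩ : ∃ d, r = i' + d := ⟨r - i', by omega⟩
            obtain ⟨e, he⟩ : ∃ e, m = m' + e := ⟨m - m', by omega⟩
            have hbb : b = m' + 1 := by omega
            have hx1 : r - i' = d := by omega
            have hx2 : m - m' = e := by omega
            rw [hx1, hx2, hbb, hd, he]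
            nlinarith
        _ = 6 ^ r * D ^ i' * 2 ^ (m * r) := by
            rw [pow_add, show (6 : ℕ) = 3 * 2 by norm_num, mul_pow]; ring
        _ ≤ D * D ^ i' * 2 ^ (m * r) := by
            refine Nat.mul_le_mul_right _ (Nat.mul_le_mul_right _ ?_)
            exact (Nat.pow_le_pow_right (by norm_num) hrn).trans hD
        _ = D ^ (i' + 1) * 2 ^ (m * r) := by rw [pow_succ]; ring
        _ ≤ D ^ r * 2 ^ (m * r) := by
            refine Nat.mul_le_mul_right _ (Nat.pow_le_pow_right ?_ (by omega))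
            exact lt_of_lt_of_le (by positivity) hD

theorem rk_le (x : Fin (n + 1) → ℤ) (hx : x ≠ 0) (m : ℕ) : rk x m ≤ n := by
  classical
  obtain ⟨i₀, hi₀⟩ := exists_ne_coord hx
  let φ : (Fin (n + 1) → ℝ) →ₗ[ℝ] ℝ := ∑ i, (x i : ℝ) • LinearMap.proj i
  have hφ : ∀ w, φ w = ∑ i, (x i : ℝ) * w i := by
    intro w
    simp [φ, LinearMap.sum_apply]
  have hle : Vs x m ≤ LinearMap.ker φ := by
    unfold Vs
    rw [Submodule.span_le]
    rintro _ ⟨y, hy, rfl⟩
    have hy' := (mem_Lset.1 (Finset.mem_coe.1 hy)).2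
    rw [SetLike.mem_coe, LinearMap.mem_ker, hφ]
    have : ((∑ i, y i * x i : ℤ) : ℝ) = 0 := by rw [hy']; simp
    rw [← this]
    push_cast
    refine Finset.sum_congr rfl fun i _ => ?_
    simp [castR, mul_comm]
  have hsurj : LinearMap.range φ = ⊤ := by
    rw [LinearMap.range_eq_top]
    intro c
    refine ⟨Pi.single i₀ (c / (x i₀ : ℝ)), ?_⟩
    rw [hφ, Finset.sum_eq_single i₀]
    · have : (x i₀ : ℝ) ≠ 0 := by exact_mod_cast hi₀
      simp only [Pi.single_eq_same]
      field_simp
    · intro b _ hb; simp [hb]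
    · intro h; exact absurd (Finset.mem_univ _) h
  have h1 := LinearMap.finrank_range_add_finrank_ker φ
  rw [hsurj, finrank_top] at h1
  simp only [finrank_self, finrank_fintype_fun_eq_card, Fintype.card_fin] at h1
  have h2 := Submodule.finrank_mono hle
  unfold rk
  omega

theorem exists_rk_eq (x : Fin (n + 1) → ℤ) (hx : x ≠ 0) : ∃ m, rk x m = n := by
  classical
  obtain ⟨i₀, hi₀⟩ := exists_ne_coord hx
  -- bound for the entries
  set B : ℕ := ∑ i, (x i).natAbs with hB
  have hxB : ∀ i, |x i| ≤ B := by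
    intro i
    have : (x i).natAbs ≤ B := Finset.single_le_sum (f := fun i => (x i).natAbs)
      (fun _ _ => Nat.zero_le _) (Finset.mem_univ i)
    rw [Int.abs_eq_natAbs]
    exact_mod_cast this
  refine ⟨B, le_antisymm (rk_le x hx B) ?_⟩
  let z : {j : Fin (n + 1) // j ≠ i₀} → Fin (n + 1) → ℤ := fun j =>
    Pi.single j.1 (x i₀) - Pi.single i₀ (x j.1)
  have hz : ∀ j, z j ∈ Lset x (2 ^ B) := by
    intro j
    rw [mem_Lset]
    have hlt : (B : ℤ) < (2 ^ B : ℕ) := by exact_mod_cast Nat.lt_two_pow_self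
    constructor
    · intro i
      simp only [z, Pi.sub_apply, Pi.single_apply]
      by_cases h1 : i = j.1
      · have h2 : i ≠ i₀ := by rw [h1]; exact j.2
        rw [if_pos h1, if_neg h2, sub_zero]
        exact (hxB i₀).trans_lt hlt
      · rw [if_neg h1]
        by_cases h2 : i = i₀
        · rw [if_pos h2, zero_sub, abs_neg]
          exact (hxB _).trans_lt hlt
        · rw [if_neg h2, sub_zero, abs_zero]
          positivity
    · simp only [z, Pi.sub_apply, Pi.single_apply, sub_mul, Finset.sum_sub_distrib, ite_mul,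
        zero_mul, Finset.sum_ite_eq', Finset.mem_univ, if_true]
      ring
  let u : {j : Fin (n + 1) // j ≠ i₀} → Vs x B := fun j =>
    ⟨castR (z j), Submodule.subset_span ⟨z j, hz j, rfl⟩⟩
  have hli : LinearIndependent ℝ u := by
    rw [Fintype.linearIndependent_iff]
    intro c hc j
    have h1 := congrArg (fun w : Vs x B => (w : Fin (n + 1) → ℝ) j.1) hc
    simp only [Submodule.coe_sum, Submodule.coe_smul, Finset.sum_apply, Pi.smul_apply,
      smul_eq_mul, ZeroMemClass.coe_zero, Pi.zero_apply] at h1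
    rw [Finset.sum_eq_single j] at h1
    · have h2 : (u j : Fin (n + 1) → ℝ) j.1 = x i₀ := by
        simp [u, z, castR, j.2]
      rw [h2] at h1
      exact (mul_eq_zero.1 h1).resolve_right (by exact_mod_cast hi₀)
    · intro k _ hk
      have h2 : (u k : Fin (n + 1) → ℝ) j.1 = 0 := by
        have h3 : j.1 ≠ k.1 := fun h => hk (Subtype.ext h.symm)
        simp [u, z, castR, j.2, h3]
      rw [h2, mul_zero]
    · intro h; exact absurd (Finset.mem_univ _) h
  have := hli.fintype_card_le_finrank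
  have hc : Fintype.card {j : Fin (n + 1) // j ≠ i₀} = n := by
    rw [Fintype.card_subtype_compl]
    simp
  rw [hc] at this
  exact this

/-- selection of independent short vectors -/
theorem exists_short_vectors (x : Fin (n + 1) → ℤ) (hx : x ≠ 0) :
    ∀ k, k ≤ n → ∃ y : Fin k → Fin (n + 1) → ℤ,
      LinearIndependent ℝ (fun j => castR (y j)) ∧ ∀ j : Fin k, y j ∈ Lset x (2 ^ aE x j) := by
  classical
  obtain ⟨M, hM⟩ := exists_rk_eq x hx
  intro k
  induction k with
  | zero => intro _; exact ⟨Fin.elim0, linearIndependent_empty_type, fun j => j.elim0⟩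
  | succ k ih =>
    intro hk
    obtain ⟨y, hy1, hy2⟩ := ih (by omega)
    have hlt : k < rk x (aE x k) := lt_rk_aE (m := M) (by omega)
    have hex : ∃ z ∈ Lset x (2 ^ aE x k),
        castR z ∉ Submodule.span ℝ (Set.range fun j => castR (y j)) := by
      by_contra hcon
      push Not at hcon
      have hle : Vs x (aE x k) ≤ Submodule.span ℝ (Set.range fun j => castR (y j)) := by
        unfold Vs
        rw [Submodule.span_le]
        rintro _ ⟨z, hz, rfl⟩
        exact hcon z hz
      have h1 := Submodule.finrank_mono hle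
      have h2 := finrank_range_le_card (R := ℝ) (fun j => castR (y j))
      rw [Fintype.card_fin] at h2
      unfold Set.finrank at h2
      unfold rk at hlt
      omega
    obtain ⟨z, hz1, hz2⟩ := hex
    refine ⟨Fin.snoc y z, ?_, ?_⟩
    · have : (fun j => castR ((Fin.snoc y z : Fin (k + 1) → Fin (n + 1) → ℤ) j))
          = Fin.snoc (fun j => castR (y j)) (castR z) := by
        funext j
        refine Fin.lastCases ?_ (fun i => ?_) j
        · simp
        · simp
      rw [this, linearIndependent_finSnoc]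
      exact ⟨hy1, hz2⟩
    · intro j
      refine Fin.lastCases ?_ (fun i => ?_) j
      · simpa using hz1
      · simpa using hy2 i

/-- short basis of `x^⊥` -/
theorem exists_short_basis (n : ℕ) : ∃ Cn : ℕ, 0 < Cn ∧ ∀ (x : Fin (n + 1) → ℤ), x ≠ 0 →
    ∀ B : ℕ, (∀ i, |x i| ≤ B) →
    ∃ (a : ℕ → ℕ) (y : ℕ → Fin (n + 1) → ℤ), (∀ j k, j ≤ k → k < n → a j ≤ a k) ∧
      (∀ j < n, ∀ i, |y j i| ≤ 2 ^ a j) ∧
      LinearIndependent ℚ (fun j : Fin n => fun i => (y j i : ℚ)) ∧
      (∀ j < n, ∑ i, y j i * x i = 0) ∧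
      2 ^ (∑ j ∈ Finset.range n, a j) ≤ Cn * B := by
  classical
  refine ⟨3 * (n + 1) * (6 ^ n) ^ n, by positivity, ?_⟩
  intro x hx B hB
  obtain ⟨y, hy1, hy2⟩ := exists_short_vectors x hx n le_rfl
  obtain ⟨M, hM⟩ := exists_rk_eq x hx
  refine ⟨aE x, fun j => if h : j < n then y ⟨j, h⟩ else 0, ?_, ?_, ?_, ?_, ?_⟩
  · intro j k hjk hk
    exact aE_mono (m := M) hjk (by omega)
  · intro j hj i
    beta_reduce
    rw [dif_pos hj]
    have := (mem_Lset.1 (hy2 ⟨j, hj⟩)).1 i
    have h2 := this.le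
    exact_mod_cast h2
  · have h1 : LinearIndependent ℚ (fun j : Fin n => castR (y j)) := by
      refine hy1.restrict_scalars ?_
      intro a b hab
      simpa using hab
    let F : (Fin (n + 1) → ℚ) →ₗ[ℚ] (Fin (n + 1) → ℝ) :=
      { toFun := fun w i => (w i : ℝ)
        map_add' := by intro a b; funext i; simp
        map_smul' := by intro c b; funext i; simp [Rat.smul_def] }
    have h2 : (fun j : Fin n => castR (y j)) = F ∘ (fun j : Fin n => fun i => (y j i : ℚ)) := by
      funext j i
      simp [F, castR]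
    rw [h2] at h1
    have h3 := h1.of_comp F
    have h4 : (fun j : Fin n => fun i => (((fun j => if h : j < n then y ⟨j, h⟩ else 0 :
        ℕ → Fin (n + 1) → ℤ) (j : ℕ) i : ℤ) : ℚ)) = (fun j : Fin n => fun i => (y j i : ℚ)) := by
      funext j i
      beta_reduce
      rw [dif_pos j.2]
    rw [h4]
    exact h3
  · intro j hj
    beta_reduce
    rw [dif_pos hj]
    exact (mem_Lset.1 (hy2 ⟨j, hj⟩)).2
  · have h1 := card_mul_le x (6 ^ n) le_rfl n le_rfl M hM
    have h2 := le_card_Lset x hx B hB M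
    have h3 : 2 ^ (M * n) * 2 ^ (∑ j ∈ Finset.range n, aE x j) ≤
        2 ^ (M * n) * (3 * (n + 1) * (6 ^ n) ^ n * B) := by
      calc 2 ^ (M * n) * 2 ^ (∑ j ∈ Finset.range n, aE x j)
          ≤ (Lset x (2 ^ M)).card * (3 * (n + 1) * B) * 2 ^ (∑ j ∈ Finset.range n, aE x j) :=
            Nat.mul_le_mul_right _ h2
        _ = (Lset x (2 ^ M)).card * 2 ^ (∑ j ∈ Finset.range n, aE x j) * (3 * (n + 1) * B) := by
            ring
        _ ≤ (6 ^ n) ^ n * 2 ^ (M * n) * (3 * (n + 1) * B) := Nat.mul_le_mul_right _ h1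
        _ = _ := by ring
    exact Nat.le_of_mul_le_mul_left h3 (by positivity)

end Pool.Agent.V11292.SZ
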