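import Mathlib

/-!
The dyadic summation.
-/

namespace Pool.Agent.V11292.SZ

open Finset

/-- finitely many points of `ℕ^N`, geometric weights -/
theorem geom_sum_le {α : Type*} (S : Finset α) (N : ℕ) (Ψ : α → Fin N → ℕ)
    (hinj : Set.InjOn Ψ S) (r : ℝ) (hr0 : 0 < r) (hr1 : r < 1) :
    ∑ s ∈ S, ∏ j, r ^ Ψ s j ≤ (1 / (1 - r)) ^ N := by
  classical
  set M : ℕ := ∑ s ∈ S, ∑ j, Ψ s j + 1 with hM
  have himg : S.image Ψ ⊆ Fintype.piFinset (fun _ : Fin N => range M) := by
    intro f hf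
    obtain ⟨s, hs, rfl⟩ := Finset.mem_image.1 hf
    rw [Fintype.mem_piFinset]
    intro j
    rw [Finset.mem_range, hM, Nat.lt_succ_iff]
    calc Ψ s j ≤ ∑ j, Ψ s j := Finset.single_le_sum (fun _ _ => Nat.zero_le _) (Finset.mem_univ j)
      _ ≤ _ := Finset.single_le_sum (f := fun s => ∑ j, Ψ s j) (fun _ _ => Nat.zero_le _) hs
  calc ∑ s ∈ S, ∏ j, r ^ Ψ s j = ∑ f ∈ S.image Ψ, ∏ j, r ^ f j := by
        rw [Finset.sum_image]
        intro a ha b hb hab
        exact hinj ha hb hab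
    _ ≤ ∑ f ∈ Fintype.piFinset (fun _ : Fin N => range M), ∏ j, r ^ f j :=
        Finset.sum_le_sum_of_subset_of_nonneg himg
          (fun f _ _ => Finset.prod_nonneg fun j _ => by positivity)
    _ = ∏ _j : Fin N, ∑ m ∈ range M, r ^ m := by
        rw [Finset.prod_univ_sum]
    _ ≤ ∏ _j : Fin N, (1 / (1 - r)) := by
        refine Finset.prod_le_prod (fun _ _ => Finset.sum_nonneg fun _ _ => by positivity)
          fun _ _ => ?_
        rw [geom_sum_eq hr1.ne, one_div, ← neg_div_neg_eq, div_eq_mul_inv]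
        have h1 : 0 < 1 - r := by linarith
        have h2 : -(r - 1) = 1 - r := by ring
        rw [h2]
        have h3 : -(r ^ M - 1) ≤ 1 := by
          have : 0 ≤ r ^ M := by positivity
          linarith
        calc _ ≤ 1 * (1 - r)⁻¹ := mul_le_mul_of_nonneg_right h3 (by positivity)
          _ = _ := one_mul _
    _ = _ := by simp

variable {n : ℕ}

def Wt (c : Fin n → ℕ) : ℕ := ∑ i : Fin n, (n - (i : ℕ)) * c i
def E1 (κ : ℕ → ℕ) (c : Fin n → ℕ) : ℕ := ∑ i : Fin n, (n + 1 - (i : ℕ)) * κ i * c i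
def E2 (c : Fin n → ℕ) : ℕ := ∑ i : Fin n, (n - (i : ℕ)) * (n + 1 - (i : ℕ)) * c i

def SW (n β : ℕ) : Finset (Fin n → ℕ) :=
  (Fintype.piFinset fun _ => range (β + 1)).filter (fun c => Wt c ≤ β)

theorem mem_SW {β : ℕ} {c : Fin n → ℕ} : c ∈ SW n β ↔ Wt c ≤ β := by
  unfold SW
  rw [Finset.mem_filter, Fintype.mem_piFinset]
  constructor
  · exact fun h => h.2
  · intro h
    refine ⟨fun i => ?_, h⟩
    rw [Finset.mem_range, Nat.lt_succ_iff]
    refine le_trans ?_ h
    calc c i ≤ (n - i) * c i := Nat.le_mul_of_pos_left _ (by have := i.2; omega)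
      _ ≤ Wt c := Finset.single_le_sum (f := fun i : Fin n => (n - i) * c i)
          (fun _ _ => Nat.zero_le _) (Finset.mem_univ i)

/-- deficit -/
def dl (n k : ℕ) (κ : ℕ → ℕ) (i : ℕ) : ℕ :=
  (k + 1) * (n + 1) * (n - i) - (n + 1 - i) * (n * κ i + (n - i))

theorem dl_spec {n k : ℕ} {κ : ℕ → ℕ} (h1 : ∀ i, κ i ≤ k) (h2 : ∀ i, κ i ≤ n - i)
    {i : ℕ} (hi : i < n) :
    (n + 1 - i) * (n * κ i + (n - i)) + dl n k κ i = (k + 1) * (n + 1) * (n - i) := by
  unfold dl
  rw [Nat.add_sub_cancel']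
  obtain ⟨t, ht⟩ : ∃ t, n = i + t := ⟨n - i, by omega⟩
  have h1i := h1 i
  have h2i := h2 i
  have e1 : n + 1 - i = t + 1 := by omega
  have e2 : n - i = t := by omega
  rw [e2] at h2i
  rw [e1, e2]
  rcases le_total t k with h | h
  · calc (t + 1) * (n * κ i + t) ≤ (t + 1) * (n * t + t) :=
        Nat.mul_le_mul_left _ (Nat.add_le_add_right (Nat.mul_le_mul_left _ h2i) _)
      _ = (t + 1) * (n + 1) * t := by ring
      _ ≤ (k + 1) * (n + 1) * t := by gcongr
  · have h3 : (t + 1) * (n * κ i + t) ≤ (t + 1) * (n * k + t) :=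
      Nat.mul_le_mul_left _ (Nat.add_le_add_right (Nat.mul_le_mul_left _ h1i) _)
    refine h3.trans ?_
    obtain ⟨e, he⟩ : ∃ e, t = k + e := ⟨t - k, by omega⟩
    have htn : t ≤ n := by omega
    obtain ⟨f, hf⟩ : ∃ f, n = t + f := ⟨n - t, by omega⟩
    have : (k + 1) * (n + 1) * t = (t + 1) * (n * k + t) + e * f := by
      rw [hf, he]; ring
    omega

theorem dl_pos {n k : ℕ} {κ : ℕ → ℕ} (h1 : ∀ i, κ i ≤ k) (h2 : ∀ i, κ i ≤ n - i)
    {i : ℕ} (hi : i < n) (hi0 : 0 < i) (hne : n - i = k → κ i < k) :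
    1 ≤ dl n k κ i := by
  have hspec := dl_spec h1 h2 hi
  obtain ⟨t, ht⟩ : ∃ t, n = i + t := ⟨n - i, by omega⟩
  have h1i := h1 i
  have h2i := h2 i
  have e1 : n + 1 - i = t + 1 := by omega
  have e2 : n - i = t := by omega
  rw [e2] at h2i hne
  rw [e1, e2] at hspec
  rcases lt_trichotomy t k with h | h | h
  · have h3 : (t + 1) * (n * κ i + t) ≤ (t + 1) * (n + 1) * t := by
      calc (t + 1) * (n * κ i + t) ≤ (t + 1) * (n * t + t) :=
          Nat.mul_le_mul_left _ (Nat.add_le_add_right (Nat.mul_le_mul_left _ h2i) _)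
        _ = _ := by ring
    have h4 : (t + 1) * (n + 1) * t < (k + 1) * (n + 1) * t := by
      have ht0 : 0 < t := by omega
      have : (t + 1) * ((n + 1) * t) < (k + 1) * ((n + 1) * t) :=
        Nat.mul_lt_mul_of_pos_right (by omega) (by positivity)
      calc _ = (t + 1) * ((n + 1) * t) := by ring
        _ < _ := this
        _ = _ := by ring
    omega
  · have h3 := hne h
    have h4 : (t + 1) * (n * κ i + t) < (k + 1) * (n + 1) * t := by
      have hn : 0 < n := by omega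
      calc (t + 1) * (n * κ i + t) < (t + 1) * (n * k + t) := by
            apply Nat.mul_lt_mul_of_pos_left _ (by omega)
            have := Nat.mul_lt_mul_of_pos_left h3 hn
            omega
        _ = (k + 1) * (n + 1) * t := by rw [h]; ring
    omega
  · have h3 : (t + 1) * (n * κ i + t) ≤ (t + 1) * (n * k + t) :=
      Nat.mul_le_mul_left _ (Nat.add_le_add_right (Nat.mul_le_mul_left _ h1i) _)
    obtain ⟨e, he⟩ : ∃ e, t = k + e := ⟨t - k, by omega⟩
    obtain ⟨f, hf⟩ : ∃ f, n = t + f := ⟨n - t, by omega⟩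
    have h5 : (k + 1) * (n + 1) * t = (t + 1) * (n * k + t) + e * f := by
      rw [hf, he]; ring
    have h6 : 0 < e * f := by
      apply Nat.mul_pos <;> omega
    omega

theorem E_identity {k : ℕ} {κ : ℕ → ℕ} (h1 : ∀ i, κ i ≤ k)
    (h2 : ∀ i, κ i ≤ n - i) (c : Fin n → ℕ) :
    n * E1 κ c + E2 c + ∑ i : Fin n, dl n k κ i * c i = (k + 1) * (n + 1) * Wt c := by
  unfold E1 E2 Wt
  rw [Finset.mul_sum, Finset.mul_sum, ← Finset.sum_add_distrib, ← Finset.sum_add_distrib]
  refine Finset.sum_congr rfl fun i _ => ?_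
  have := dl_spec h1 h2 i.2
  calc n * ((n + 1 - (i : ℕ)) * κ i * c i) + (n - (i : ℕ)) * (n + 1 - (i : ℕ)) * c i +
        dl n k κ i * c i
      = ((n + 1 - (i : ℕ)) * (n * κ i + (n - (i : ℕ))) + dl n k κ i) * c i := by ring
    _ = _ := by rw [this]; ring

/-- the penalty inequality -/
theorem penalty {k : ℕ} {κ : ℕ → ℕ} (h1 : ∀ i, κ i ≤ k)
    (h2 : ∀ i, κ i ≤ n - i) (hn : 1 ≤ n) (c : Fin n → ℕ) (β u : ℕ) (hW : Wt c ≤ β) :
    (n + 1) * min (u + E1 κ c) (E2 c) + ((β - Wt c) + ∑ i : Fin n, dl n k κ i * c i +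
      ((u + E1 κ c : ℤ) - E2 c).natAbs) ≤ (n + 1) * (k + 1) * β + n * u := by
  have hid := E_identity h1 h2 c
  set x := u + E1 κ c with hx
  have hx' : n * x = n * u + n * E1 κ c := by rw [hx]; ring
  set y := E2 c
  have hmain : (n + 1) * min x y + ((x : ℤ) - y).natAbs ≤ n * x + y := by
    rcases le_total x y with h | h
    · rw [min_eq_left h]
      have : ((x : ℤ) - y).natAbs = y - x := by omega
      rw [this]
      have : (n + 1) * x = n * x + x := by ring
      omega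
    · rw [min_eq_right h]
      have : ((x : ℤ) - y).natAbs = x - y := by omega
      rw [this]
      obtain ⟨z, hz⟩ : ∃ z, x = y + z := ⟨x - y, by omega⟩
      rw [hz, Nat.add_sub_cancel_left]
      have : z ≤ n * z := Nat.le_mul_of_pos_left _ hn
      nlinarith
  have hβ : (k + 1) * (n + 1) * Wt c + (β - Wt c) ≤ (n + 1) * (k + 1) * β := by
    obtain ⟨z, hz⟩ : ∃ z, β = Wt c + z := ⟨β - Wt c, by omega⟩
    rw [hz, Nat.add_sub_cancel_left]
    have h5 : z ≤ (n + 1) * (k + 1) * z := Nat.le_mul_of_pos_left _ (by positivity)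
    have h6 : (n + 1) * (k + 1) * (Wt c + z) = (k + 1) * (n + 1) * Wt c +
      (n + 1) * (k + 1) * z := by ring
    rw [h6]
    omega
  have hcast : ((u + E1 κ c : ℤ) - E2 c).natAbs = ((x : ℤ) - y).natAbs := by
    rw [hx]; push_cast; rfl
  rw [hcast]
  omega

theorem sum_natural (r : ℝ) (hr0 : 0 < r) (hr1 : r < 1) {k : ℕ} (hk : k ≤ n) {κ : ℕ → ℕ}
    (h1 : ∀ i, κ i ≤ k) (h2 : ∀ i, κ i ≤ n - i) (hκ0 : κ 0 = k) (hn : 1 ≤ n) (β u : ℕ) :
    ∑ c ∈ SW n β, r ^ ((β - Wt c) + ∑ i : Fin n, dl n k κ i * c i +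
      ((u + E1 κ c : ℤ) - E2 c).natAbs) ≤ 2 * (1 / (1 - r)) ^ n := by
  classical
  set z : Fin n := ⟨0, hn⟩ with hz
  have hpos : 0 ≤ (1 / (1 - r)) ^ n := by
    have : 0 < 1 - r := by linarith
    positivity
  -- W determines c 0 once the others are fixed
  have hWdet : ∀ (i₀ : Fin n) (c c' : Fin n → ℕ), (∀ i, i ≠ i₀ → c i = c' i) → Wt c = Wt c' →
      c = c' := by
    intro i₀ c c' h hW
    unfold Wt at hW
    rw [← Finset.add_sum_erase _ _ (Finset.mem_univ i₀),
      ← Finset.add_sum_erase _ _ (Finset.mem_univ i₀)] at hW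
    have h3 : ∑ i ∈ Finset.univ.erase i₀, (n - (i : ℕ)) * c i =
        ∑ i ∈ Finset.univ.erase i₀, (n - (i : ℕ)) * c' i := by
      refine Finset.sum_congr rfl fun i hi => ?_
      rw [h i (Finset.ne_of_mem_erase hi)]
    rw [h3] at hW
    have h4 : (n - (i₀ : ℕ)) * c i₀ = (n - (i₀ : ℕ)) * c' i₀ := by omega
    have h5 : 0 < n - (i₀ : ℕ) := by have := i₀.2; omega
    have h6 := Nat.eq_of_mul_eq_mul_left h5 h4
    funext i
    by_cases hi : i = i₀
    · rw [hi]; exact h6
    · exact h i hi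
  by_cases htop : ∀ i : Fin n, 0 < (i : ℕ) → 1 ≤ dl n k κ i
  · -- Case A
    let Ψ : (Fin n → ℕ) → Fin n → ℕ := fun c i => if i = z then β - Wt c else c i
    have hinj : Set.InjOn Ψ (SW n β) := by
      intro c hc c' hc' h
      have hc1 := mem_SW.1 (Finset.mem_coe.1 hc)
      have hc2 := mem_SW.1 (Finset.mem_coe.1 hc')
      refine hWdet z c c' ?_ ?_
      · intro i hi
        have := congrFun h i
        simpa [Ψ, hi] using this
      · have := congrFun h z
        simp only [Ψ, if_true] at this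
        omega
    have h3 := geom_sum_le (SW n β) n Ψ hinj r hr0 hr1
    refine le_trans (Finset.sum_le_sum fun c hc => ?_) (h3.trans (by linarith))
    rw [Finset.prod_pow_eq_pow_sum]
    refine pow_le_pow_of_le_one hr0.le hr1.le ?_
    have h4 : ∑ i, Ψ c i ≤ (β - Wt c) + ∑ i : Fin n, dl n k κ i * c i := by
      rw [← Finset.add_sum_erase _ _ (Finset.mem_univ z)]
      refine add_le_add ?_ ?_
      · simp [Ψ]
      · calc ∑ i ∈ Finset.univ.erase z, Ψ c i ≤ ∑ i ∈ Finset.univ.erase z, dl n k κ i * c i := by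
              refine Finset.sum_le_sum fun i hi => ?_
              have hiz := Finset.ne_of_mem_erase hi
              simp only [Ψ, if_neg hiz]
              have hi0 : 0 < (i : ℕ) := by
                rw [Nat.pos_iff_ne_zero]
                intro h0
                exact hiz (Fin.ext h0)
              exact Nat.le_mul_of_pos_left _ (htop i hi0)
          _ ≤ _ := Finset.sum_le_sum_of_subset (Finset.erase_subset _ _)
    omega
  · -- Case B
    push Not at htop
    obtain ⟨i₁, hi₁0, hi₁⟩ := htop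
    have hi₁k : n - (i₁ : ℕ) = k ∧ κ i₁ = k := by
      by_contra hcon
      have : 1 ≤ dl n k κ i₁ := dl_pos h1 h2 i₁.2 hi₁0 (by
        intro h
        have h5 := h1 i₁
        by_contra h6
        exact hcon ⟨h, by omega⟩)
      omega
    have hi₁z : i₁ ≠ z := by
      intro h
      rw [h] at hi₁0
      simp [hz] at hi₁0
    have hkn : k < n := by have := i₁.2; omega
    have hk1 : 1 ≤ k := by have := i₁.2; omega
    have hdl : ∀ i : Fin n, i ≠ z → i ≠ i₁ → 1 ≤ dl n k κ i := by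
      intro i hiz hii
      have hi0 : 0 < (i : ℕ) := by
        rw [Nat.pos_iff_ne_zero]
        intro h0
        exact hiz (Fin.ext h0)
      refine dl_pos h1 h2 i.2 hi0 ?_
      intro h
      exfalso
      apply hii
      apply Fin.ext
      have := i.2
      have := i₁.2
      omega
    let ρ : (Fin n → ℕ) → ℤ := fun c => (u + E1 κ c : ℤ) - E2 c
    let Ψ : (Fin n → ℕ) → Fin n → ℕ := fun c i => if i = z then (ρ c).natAbs else
      if i = i₁ then β - Wt c else c i
    -- ρ determines c 0 once the others (except i₁) are fixed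
    have hρdet : ∀ (c c' : Fin n → ℕ), (∀ i, i ≠ z → i ≠ i₁ → c i = c' i) → ρ c = ρ c' →
        c z = c' z := by
      intro c c' h hρ
      have hρ' : ∀ c, ρ c = u - ∑ i : Fin n, ((n + 1 - (i : ℕ) : ℕ) : ℤ) *
          (((n - (i : ℕ) : ℕ) : ℤ) - κ i) * c i := by
        intro c
        simp only [ρ, E1, E2]
        push_cast
        have : ∑ i : Fin n, ((n + 1 - (i : ℕ) : ℕ) : ℤ) * (((n - (i : ℕ) : ℕ) : ℤ) - κ i) * c i
            = ∑ i : Fin n, ((n - (i : ℕ) : ℕ) : ℤ) * ((n + 1 - (i : ℕ) : ℕ) : ℤ) * c i -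
              ∑ i : Fin n, ((n + 1 - (i : ℕ) : ℕ) : ℤ) * κ i * c i := by
          rw [← Finset.sum_sub_distrib]
          refine Finset.sum_congr rfl fun i _ => ?_
          ring
        rw [this]
        ring
      rw [hρ', hρ'] at hρ
      have h5 : ∑ i : Fin n, ((n + 1 - (i : ℕ) : ℕ) : ℤ) *
          (((n - (i : ℕ) : ℕ) : ℤ) - κ i) * c i = ∑ i : Fin n, ((n + 1 - (i : ℕ) : ℕ) : ℤ) *
          (((n - (i : ℕ) : ℕ) : ℤ) - κ i) * c' i := by linarith
      rw [← Finset.add_sum_erase _ _ (Finset.mem_univ z),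
        ← Finset.add_sum_erase _ _ (Finset.mem_univ z)] at h5
      have h6 : ∑ i ∈ Finset.univ.erase z, ((n + 1 - (i : ℕ) : ℕ) : ℤ) *
          (((n - (i : ℕ) : ℕ) : ℤ) - κ i) * c i = ∑ i ∈ Finset.univ.erase z,
          ((n + 1 - (i : ℕ) : ℕ) : ℤ) * (((n - (i : ℕ) : ℕ) : ℤ) - κ i) * c' i := by
        refine Finset.sum_congr rfl fun i hi => ?_
        by_cases hii : i = i₁
        · rw [hii, hi₁k.1, hi₁k.2]
          simp
        · rw [h i (Finset.ne_of_mem_erase hi) hii]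
      rw [h6] at h5
      have h7 : ((n + 1 - (z : ℕ) : ℕ) : ℤ) * (((n - (z : ℕ) : ℕ) : ℤ) - κ z) ≠ 0 := by
        have e1 : (z : ℕ) = 0 := rfl
        rw [e1, hκ0]
        refine mul_ne_zero ?_ ?_
        · have : 0 < n + 1 - 0 := by omega
          exact_mod_cast this.ne'
        · have : ((n - 0 : ℕ) : ℤ) - k > 0 := by
            simp only [Nat.sub_zero]
            have : (k : ℤ) < n := by exact_mod_cast hkn
            linarith
          exact this.ne'
      have h8 : ((n + 1 - (z : ℕ) : ℕ) : ℤ) * (((n - (z : ℕ) : ℕ) : ℤ) - κ z) * c z =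
          ((n + 1 - (z : ℕ) : ℕ) : ℤ) * (((n - (z : ℕ) : ℕ) : ℤ) - κ z) * c' z := by linarith
      have h9 := mul_left_cancel₀ h7 h8
      exact_mod_cast h9
    have hΨdet : ∀ c ∈ SW n β, ∀ c' ∈ SW n β, Ψ c = Ψ c' → ρ c = ρ c' → c = c' := by
      intro c hc c' hc' h hρ
      have hc1 := mem_SW.1 hc
      have hc2 := mem_SW.1 hc'
      have hother : ∀ i, i ≠ z → i ≠ i₁ → c i = c' i := by
        intro i hiz hii
        have := congrFun h i
        simpa [Ψ, hiz, hii] using this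
      have hc0 := hρdet c c' hother hρ
      refine hWdet i₁ c c' ?_ ?_
      · intro i hi
        by_cases hiz : i = z
        · rw [hiz]; exact hc0
        · exact hother i hiz hi
      · have := congrFun h i₁
        simp only [Ψ, if_neg hi₁z, if_true] at this
        omega
    have hterm : ∀ c, r ^ ((β - Wt c) + ∑ i : Fin n, dl n k κ i * c i +
        ((u + E1 κ c : ℤ) - E2 c).natAbs) ≤ ∏ j, r ^ Ψ c j := by
      intro c
      rw [Finset.prod_pow_eq_pow_sum]
      refine pow_le_pow_of_le_one hr0.le hr1.le ?_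
      rw [← Finset.add_sum_erase _ _ (Finset.mem_univ z),
        ← Finset.add_sum_erase _ _ (Finset.mem_erase.2 ⟨hi₁z, Finset.mem_univ i₁⟩)]
      have e1 : Ψ c z = (ρ c).natAbs := by simp [Ψ]
      have e2 : Ψ c i₁ = β - Wt c := by simp [Ψ, hi₁z]
      have e3 : ∑ i ∈ (Finset.univ.erase z).erase i₁, Ψ c i ≤
          ∑ i : Fin n, dl n k κ i * c i := by
        calc _ ≤ ∑ i ∈ (Finset.univ.erase z).erase i₁, dl n k κ i * c i := by
              refine Finset.sum_le_sum fun i hi => ?_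
              have hii := Finset.ne_of_mem_erase hi
              have hiz := Finset.ne_of_mem_erase (Finset.mem_of_mem_erase hi)
              simp only [Ψ, if_neg hiz, if_neg hii]
              exact Nat.le_mul_of_pos_left _ (hdl i hiz hii)
          _ ≤ _ := Finset.sum_le_sum_of_subset (Finset.subset_univ _)
      rw [e1, e2]
      have e4 : (ρ c).natAbs = ((u + E1 κ c : ℤ) - E2 c).natAbs := rfl
      omega
    have hsplit := Finset.sum_filter_add_sum_filter_not (SW n β) (fun c => 0 ≤ ρ c)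
      (fun c => ∏ j, r ^ Ψ c j)
    have hA : ∑ c ∈ (SW n β).filter (fun c => 0 ≤ ρ c), ∏ j, r ^ Ψ c j ≤
        (1 / (1 - r)) ^ n := by
      refine geom_sum_le _ n Ψ ?_ r hr0 hr1
      intro c hc c' hc' h
      obtain ⟨hc1, hc2⟩ := Finset.mem_filter.1 (Finset.mem_coe.1 hc)
      obtain ⟨hc'1, hc'2⟩ := Finset.mem_filter.1 (Finset.mem_coe.1 hc')
      refine hΨdet c hc1 c' hc'1 h ?_
      have := congrFun h z
      simp only [Ψ, if_true] at this
      omega
    have hB : ∑ c ∈ (SW n β).filter (fun c => ¬ 0 ≤ ρ c), ∏ j, r ^ Ψ c j ≤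
        (1 / (1 - r)) ^ n := by
      refine geom_sum_le _ n Ψ ?_ r hr0 hr1
      intro c hc c' hc' h
      obtain ⟨hc1, hc2⟩ := Finset.mem_filter.1 (Finset.mem_coe.1 hc)
      obtain ⟨hc'1, hc'2⟩ := Finset.mem_filter.1 (Finset.mem_coe.1 hc')
      refine hΨdet c hc1 c' hc'1 h ?_
      have := congrFun h z
      simp only [Ψ, if_true] at this
      omega
    calc _ ≤ ∑ c ∈ SW n β, ∏ j, r ^ Ψ c j := Finset.sum_le_sum fun c _ => hterm c
      _ = _ := hsplit.symm
      _ ≤ _ := by linarith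

/-- The dyadic sum, with `q = 2^{1/(n+1)}`. -/
theorem sum_main (q : ℝ) (hq : 1 < q) (hq2 : q ^ (n + 1) = 2) {k : ℕ} (hk : k ≤ n) {κ : ℕ → ℕ}
    (h1 : ∀ i, κ i ≤ k) (h2 : ∀ i, κ i ≤ n - i) (hκ0 : κ 0 = k) (hn : 1 ≤ n) (β u : ℕ) :
    ∑ c ∈ SW n β, (2 : ℝ) ^ (min (u + E1 κ c) (E2 c)) ≤
      2 * (1 / (1 - 1 / q)) ^ n * q ^ ((n + 1) * (k + 1) * β + n * u) := by
  have hq0 : 0 < q := by linarith
  have hr0 : 0 < 1 / q := by positivity
  have hr1 : 1 / q < 1 := by rw [div_lt_one hq0]; exact hq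
  have h3 := sum_natural (1 / q) hr0 hr1 hk h1 h2 hκ0 hn β u
  calc ∑ c ∈ SW n β, (2 : ℝ) ^ (min (u + E1 κ c) (E2 c))
      ≤ ∑ c ∈ SW n β, (1 / q) ^ ((β - Wt c) + ∑ i : Fin n, dl n k κ i * c i +
      ((u + E1 κ c : ℤ) - E2 c).natAbs) * q ^ ((n + 1) * (k + 1) * β + n * u) := by
        refine Finset.sum_le_sum fun c hc => ?_
        have h4 := penalty h1 h2 hn c β u (mem_SW.1 hc)
        rw [← hq2, ← pow_mul, one_div, inv_pow, inv_mul_eq_div, le_div_iff₀ (by positivity),
          ← pow_add]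
        exact pow_le_pow_right₀ hq.le h4
    _ = (∑ c ∈ SW n β, (1 / q) ^ ((β - Wt c) + ∑ i : Fin n, dl n k κ i * c i +
      ((u + E1 κ c : ℤ) - E2 c).natAbs)) * q ^ ((n + 1) * (k + 1) * β + n * u) := by
        rw [Finset.sum_mul]
    _ ≤ _ := mul_le_mul_of_nonneg_right h3 (by positivity)

end Pool.Agent.V11292.SZ
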